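import Pool.Agent.N926.Tri.D

/-! the first congruence -/

set_option autoImplicit false
set_option linter.unusedVariables false
set_option linter.unusedSectionVars false

namespace Pool.Agent.N926.Tri

open Finset Pool.Agent.N926.Sup2 Pool.Agent.N926.Sup Pool.Agent.N926.F54 Pool.Agent.N926.F37 Pool.Agent.N926.Fib

theorem ch_top (n k : ℕ) : ((n:ℚ)+1-k) * (((n+1).choose k : ℕ) : ℚ) = ((n:ℚ)+1) * ((n.choose k : ℕ) : ℚ) := by
  by_cases h : k ≤ n+1
  · have := congrArg (fun n : ℕ => (n:ℚ)) (Nat.choose_mul_succ_eq n k)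
    push_cast [Nat.cast_sub h] at this
    linarith
  · rw [Nat.choose_eq_zero_of_lt (show n+1 < k by omega), Nat.choose_eq_zero_of_lt (show n < k by omega)]
    simp

theorem sumj (k : ℕ) : ∀ n : ℕ, ∑ j ∈ range n, (((2*j).choose j : ℕ) : ℚ) * ((j.choose k : ℕ) : ℚ) / 4^j =
    2*((n:ℚ)-k)/(2*k+1) * ((((2*n).choose n : ℕ) : ℚ) / 4^n) * ((n.choose k : ℕ) : ℚ)
  | 0 => by
    rcases Nat.eq_zero_or_pos k with h | h
    · subst h; simp
    · rw [Nat.choose_eq_zero_of_lt h]; simp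
  | (n+1) => by
    rw [sum_range_succ, sumj k n]
    have h1 := ch_top n k
    have h2 := cb_up n
    have hk : 2*(k:ℚ)+1 ≠ 0 := by positivity
    have hn : (n:ℚ)+1 ≠ 0 := by positivity
    have e2 : (((2*(n+1)).choose (n+1) : ℕ) : ℚ) = 2*(2*(n:ℚ)+1) * (((2*n).choose n : ℕ) : ℚ) / ((n:ℚ)+1) := by
      rw [eq_div_iff hn]; linarith
    have e3 : 2*(((n+1:ℕ):ℚ)-k)/(2*k+1) * ((((2*(n+1)).choose (n+1) : ℕ) : ℚ) / 4^(n+1)) * (((n+1).choose k : ℕ) : ℚ) =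
       2/(2*k+1) * ((((2*(n+1)).choose (n+1) : ℕ) : ℚ) / 4^(n+1)) * (((n:ℚ)+1-k) * (((n+1).choose k : ℕ) : ℚ)) := by
      push_cast; ring
    rw [e3, h1, e2, pow_succ]
    field_simp
    ring

section
variable {p : ℕ} [hp : Fact p.Prime]

theorem cpp : Dv p 2 ((((2*p).choose p : ℕ) : ℚ) - 2) := by
  obtain ⟨q, hq⟩ : ∃ q, p = q+1 := ⟨p-1, by have := hp.out.one_lt; omega⟩
  have h1 := Nat.sum_range_choose_sq p
  have h2 : (((2*p).choose p : ℕ) : ℚ) - 2 = ∑ i ∈ range q, ((p.choose (i+1) : ℕ) : ℚ)^2 := by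
    rw [← h1, sum_range_succ, hq, sum_range_succ']
    push_cast
    simp only [Nat.choose_zero_right, Nat.choose_self]
    push_cast
    ring
  rw [h2]
  refine Dv.sum _ _ fun i hi => ?_
  rw [mem_range] at hi
  have h3 := hp.out.dvd_choose_self (show i+1 ≠ 0 by omega) (show i+1 < p by omega)
  have h4 : Dv p 1 ((p.choose (i+1) : ℕ) : ℚ) := by
    have := Dv.of_dvd (p := p) (n := 1) (z := ((p.choose (i+1) : ℕ) : ℤ)) (by rw [pow_one]; exact_mod_cast h3)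
    simpa using this
  have := h4.pow 2
  simpa using this

theorem four_p (p3 : 3 < p) : Dv p 1 ((4:ℚ)^p - 4) := by
  have h4 : ¬ p ∣ 4 := by
    intro h
    have : p ∣ 2^2 := by norm_num; exact h
    exact nd2 p3 (hp.out.dvd_of_dvd_pow this)
  have h1 := fermat h4
  push_cast at h1
  have e : (4:ℚ)^p = 4^(p-1) * 4 := by
    rw [← pow_succ]; congr 1; have := hp.out.one_lt; omega
  rw [e]
  refine Dv_eq ?_ (h1.mul0 (Dv.nat (p := p) 4))
  push_cast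
  ring

theorem unit3 (p3 : 3 < p) (n : ℕ) : padicValRat p ((3:ℚ)^n) = 0 := by
  rw [padicValRat.pow]
  have := unit_nat (p := p) (n := 3) (nd3 p3)
  push_cast at this
  rw [this, mul_zero]

theorem unit_mul' {a b : ℚ} (ha0 : a ≠ 0) (hb0 : b ≠ 0) (ha : padicValRat p a = 0) (hb : padicValRat p b = 0) : padicValRat p (a*b) = 0 := by
  rw [padicValRat.mul ha0 hb0, ha, hb, add_zero]

theorem unit4 (p3 : 3 < p) (n : ℕ) : padicValRat p ((4:ℚ)^n) = 0 := by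
  have : (4:ℚ)^n = 2^(2*n) := by rw [pow_mul]; norm_num
  rw [this]
  exact two_pow_unit (by omega) _

def ff (p k : ℕ) : ℚ := (((2*k).choose k : ℕ) : ℚ) * (-1/3)^k * (2 * p * (((p-1).choose k : ℕ) : ℚ)/(2*k+1) * ((((2*p).choose p : ℕ) : ℚ) / 4^p))
def gg (p h k : ℕ) : ℚ := p/(2*k+1) * (((h+k).choose (2*k) : ℕ) : ℚ) * (-16/3)^k

theorem sum_ff : ∑ j ∈ range p, (T 1 1 j : ℚ) * (((2*j).choose j : ℕ) : ℚ) / 12^j = ∑ k ∈ range p, ff p k := by
  have h1 : ∀ j ∈ range p, (T 1 1 j : ℚ) * (((2*j).choose j : ℕ) : ℚ) / 12^j =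
      ∑ k ∈ range p, ((((2*k).choose k : ℕ) : ℚ) * (-1/3)^k) * ((((2*j).choose j : ℕ) : ℚ) * ((j.choose k : ℕ) : ℚ) / 4^j) := by
    intro j hj
    rw [mem_range] at hj
    rw [T_11]
    have : ∑ k ∈ range p, ((((2*k).choose k : ℕ) : ℚ) * (-1/3)^k) * ((((2*j).choose j : ℕ) : ℚ) * ((j.choose k : ℕ) : ℚ) / 4^j) =
        ∑ k ∈ range (j+1), ((((2*k).choose k : ℕ) : ℚ) * (-1/3)^k) * ((((2*j).choose j : ℕ) : ℚ) * ((j.choose k : ℕ) : ℚ) / 4^j) := by
      symm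
      refine sum_subset (range_mono (by omega)) fun k _ hk => ?_
      rw [mem_range] at hk
      rw [Nat.choose_eq_zero_of_lt (show j < k by omega)]
      simp
    rw [this]
    push_cast
    rw [sum_mul, sum_div]
    refine sum_congr rfl fun k hk => ?_
    rw [mem_range] at hk
    obtain ⟨d, hd⟩ : ∃ d, j = k + d := ⟨j-k, by omega⟩
    rw [show j - k = d by omega, hd]
    have e1 : (12:ℚ)^(k+d) = 3^k * 3^d * 4^(k+d) := by rw [← pow_add, ← mul_pow]; norm_num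
    have e2 : (-1/3:ℚ)^k = (-1)^k/3^k := by rw [div_pow]
    rw [e1, e2]
    have h3 : (3:ℚ)^k ≠ 0 := by positivity
    have h4 : (3:ℚ)^d ≠ 0 := by positivity
    have h5 : (4:ℚ)^(k+d) ≠ 0 := by positivity
    field_simp
  rw [sum_congr rfl h1, sum_comm]
  refine sum_congr rfl fun k hk => ?_
  rw [← mul_sum, sumj]
  unfold ff
  congr 1
  have hp1 : p - 1 + 1 = p := by have := hp.out.one_lt; omega
  have h2 := ch_top (p-1) k
  rw [hp1, Nat.cast_sub (by have := hp.out.one_lt; omega)] at h2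
  push_cast at h2
  have hk : 2*(k:ℚ)+1 ≠ 0 := by positivity
  have h4 : (4:ℚ)^p ≠ 0 := by positivity
  have h3 : ((p:ℚ)-k) * ((p.choose k : ℕ) : ℚ) = p * (((p-1).choose k : ℕ) : ℚ) := by
    have e : (p:ℚ) - 1 + 1 = p := by ring
    rw [e] at h2
    exact h2
  calc 2*((p:ℚ)-k)/(2*k+1) * ((((2*p).choose p : ℕ) : ℚ) / 4^p) * ((p.choose k : ℕ) : ℚ)
      = 2/(2*k+1) * ((((2*p).choose p : ℕ) : ℚ) / 4^p) * (((p:ℚ)-k) * ((p.choose k : ℕ) : ℚ)) := by ring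
    _ = _ := by rw [h3]; ring

theorem ff_high (p3 : 3 < p) {h : ℕ} (hh : p = 2*h+1) {k : ℕ} (hk : h < k) (hkp : k < p) : Dv p 2 (ff p k) := by
  have hu : padicValRat p (2*(k:ℚ)+1) = 0 := by
    have := unit_nat (p := p) (n := 2*k+1) (by
      intro hd
      obtain ⟨c, hc⟩ := hd
      have c1 : c < 2 := by
        by_contra hcc
        have : p * 2 ≤ p * c := Nat.mul_le_mul_left _ (by omega)
        omega
      interval_cases c <;> omega)
    push_cast at this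
    exact this
  have hd : p ∣ (2*k).choose k := hp.out.dvd_choose hkp (by omega) (by omega)
  have h1 : Dv p 1 (((2*k).choose k : ℕ) : ℚ) := by
    have := Dv.of_dvd (p := p) (n := 1) (z := (((2*k).choose k : ℕ) : ℤ)) (by rw [pow_one]; exact_mod_cast hd)
    simpa using this
  have h2 := ((h1.mul (Dv.p1 (p := p))).mul0 (Dv.int (p := p) ((-1)^k * 2 * (((p-1).choose k : ℕ) : ℤ) * (((2*p).choose p : ℕ) : ℤ)))).div_unit
    (unit_mul' (p := p) (by positivity) (by positivity) (unit_mul' (p := p) (a := (3:ℚ)^k) (b := 2*(k:ℚ)+1) (by positivity) (by positivity) (unit3 p3 k) hu) (unit4 p3 p))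
  refine Dv_eq ?_ h2
  unfold ff
  rw [div_pow]
  push_cast
  field_simp

theorem ff_low (p3 : 3 < p) {h : ℕ} (hh : p = 2*h+1) {k : ℕ} (hk : k < h) : Dv p 2 (ff p k - gg p h k) := by
  have h2 : p ≠ 2 := by omega
  have hu : padicValRat p (2*(k:ℚ)+1) = 0 := by
    have := unit_nat (p := p) (n := 2*k+1) (Nat.not_dvd_of_pos_of_lt (by omega) (by omega))
    push_cast at this
    exact this
  have a1 : Dv p 1 (2 * (((2*p).choose p : ℕ) : ℚ) / 4^p - 1) := by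
    have b1 := ((cpp (p := p)).mono (show (1:ℤ) ≤ 2 by norm_num)).mul0 (Dv.nat (p := p) 2)
    have b2 := four_p (p := p) p3
    refine Dv_eq ?_ ((b1.sub b2).div_unit (unit4 p3 p))
    have h4 : (4:ℚ)^p ≠ 0 := by positivity
    push_cast
    field_simp
    ring
  have a2 : Dv p 1 ((((2*k).choose k : ℕ) : ℚ) - 16^k * ((-1:ℚ)^k * (((h+k).choose (2*k) : ℕ) : ℚ))) := by
    have b1 := ((cb_cong h2 hh (show k ≤ h by omega)).mono (show (1:ℤ) ≤ 2 by norm_num)).mul0 (Dv.int (p := p) (16^k))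
    refine Dv_eq ?_ b1
    have h4 : (16:ℚ)^k ≠ 0 := by positivity
    push_cast
    field_simp
  have a3 := pm1 (p := p) (m := k) (by omega)
  have c1 : Dv p 1 (2 * (((2*p).choose p : ℕ) : ℚ) / 4^p * (((2*k).choose k : ℕ) : ℚ) * (((p-1).choose k : ℕ) : ℚ) - 16^k * (((h+k).choose (2*k) : ℕ) : ℚ)) := by
    have d1 := a1.mul0 (Dv.int (p := p) ((((2*k).choose k : ℕ) : ℤ) * (((p-1).choose k : ℕ) : ℤ)))
    have d2 := a2.mul0 (Dv.int (p := p) ((((p-1).choose k : ℕ) : ℤ)))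
    have d3 := a3.mul0 (Dv.int (p := p) (16^k * ((-1)^k * (((h+k).choose (2*k) : ℕ) : ℤ))))
    refine Dv_eq ?_ ((d1.add d2).add d3)
    push_cast
    have := sg k
    linear_combination (-(16:ℚ)^k * (((h+k).choose (2*k) : ℕ) : ℚ)) * this
  have c2 := (((Dv.p1 (p := p)).mul c1).mul0 (Dv.int (p := p) ((-1)^k))).div_unit (unit_mul' (p := p) (a := (3:ℚ)^k) (b := 2*(k:ℚ)+1) (by positivity) (by positivity) (unit3 p3 k) hu)
  refine Dv_eq ?_ c2
  unfold ff gg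
  have e1 : (-1/3:ℚ)^k = (-1)^k/3^k := by rw [div_pow]
  have e2 : (-16/3:ℚ)^k = (-1)^k*16^k/3^k := by rw [div_pow, ← mul_pow]; norm_num
  rw [e1, e2]
  push_cast
  have h3 : (3:ℚ)^k ≠ 0 := by positivity
  have h5 : 2*(k:ℚ)+1 ≠ 0 := by positivity
  have h4 : (4:ℚ)^p ≠ 0 := by positivity
  field_simp
  try ring

theorem ff_mid (p3 : 3 < p) {h : ℕ} (hh : p = 2*h+1) : Dv p 2 (ff p h - gg p h h) := by
  have h2 : p ≠ 2 := by omega
  have a2 : Dv p 2 ((((2*h).choose h : ℕ) : ℚ) - 16^h * (-1:ℚ)^h) := by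
    have b1 := (cb_cong h2 hh (le_refl h)).mul0 (Dv.int (p := p) (16^h))
    rw [show h + h = 2*h by ring, Nat.choose_self] at b1
    refine Dv_eq ?_ b1
    have h4 : (16:ℚ)^h ≠ 0 := by positivity
    push_cast
    field_simp
  have d1 := (cpp (p := p)).mul0 (Dv.int (p := p) (2 * (((2*h).choose h : ℕ) : ℤ)^2))
  have d2 := a2.mul0 (Dv.int (p := p) (4 * ((((2*h).choose h : ℕ) : ℤ) + 16^h * (-1)^h)))
  have c2 := ((d1.add d2).mul0 (Dv.int (p := p) ((-1)^h))).div_unit (unit_mul' (p := p) (a := (3:ℚ)^h) (b := (4:ℚ)^p) (by positivity) (by positivity) (unit3 p3 h) (unit4 p3 p))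
  refine Dv_eq ?_ c2
  unfold ff gg
  have e1 : (-1/3:ℚ)^h = (-1)^h/3^h := by rw [div_pow]
  have e2 : (-16/3:ℚ)^h = (-1)^h*16^h/3^h := by rw [div_pow, ← mul_pow]; norm_num
  have e4 : (4:ℚ)^p = 4 * 16^h := by rw [hh, pow_succ, pow_mul]; norm_num; ring
  have hpq : (p:ℚ) = 2*h+1 := by rw [hh]; push_cast; ring
  rw [e1, e2, e4, show h+h = 2*h by ring, Nat.choose_self, show p-1 = 2*h by omega, hpq]
  push_cast
  have h3 : (3:ℚ)^h ≠ 0 := by positivity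
  have h5 : 2*(h:ℚ)+1 ≠ 0 := by positivity
  have h4 : (16:ℚ)^h ≠ 0 := by positivity
  have := sg h
  field_simp
  linear_combination (-4*(16:ℚ)^h*16^h) * this

def ww (h : ℕ) : ℚ := (3 * (-3)^h + 1/(-3)^h)/4

theorem cc_sum : ∀ h K : ℕ, h < K → ∑ k ∈ range K, cc (2*(h:ℚ)+1) k * (16/3)^k = ww h
  | 0, K, hK => by
    rw [sum_eq_single_of_mem 0 (by simpa using hK)]
    · rw [cc_zero]; unfold ww; norm_num
    · intro b _ hb
      rw [cc_van (m := 0) (by omega)]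
      simp
  | 1, K, hK => by
    obtain ⟨K', rfl⟩ : ∃ K', K = K' + 2 := ⟨K-2, by omega⟩
    rw [sum_range_succ', sum_range_succ']
    rw [sum_eq_zero (fun k _ => by rw [cc_van (m := 1) (by omega), zero_mul])]
    have : cc (2*((1:ℕ):ℚ)+1) 1 = -1 := by
      have := cc_last 1
      simpa using this
    simp only [zero_add]
    rw [this, cc_zero]
    unfold ww
    norm_num
  | (h+2), K, hK => by
    obtain ⟨K', rfl⟩ : ∃ K', K = K' + 1 := ⟨K-1, by omega⟩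
    have i1 := cc_sum (h+1) (K'+1) (by omega)
    have i2 := cc_sum (h+1) K' (by omega)
    have i3 := cc_sum h (K'+1) (by omega)
    rw [sum_range_succ'] at i1 i3 ⊢
    have e1 : ∀ k, cc (2*((h+2:ℕ):ℚ)+1) (k+1) = 2 * cc (2*((h+1:ℕ):ℚ)+1) (k+1) - cc (2*((h+1:ℕ):ℚ)+1) k - cc (2*(h:ℚ)+1) (k+1) := by
      intro k
      have := cc_rec (2*((h+1:ℕ):ℚ)+1) k
      have e2 : 2*((h+1:ℕ):ℚ)+1+2 = 2*((h+2:ℕ):ℚ)+1 := by push_cast; ring
      have e3 : 2*((h+1:ℕ):ℚ)+1-2 = 2*(h:ℚ)+1 := by push_cast; ring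
      rw [e2, e3] at this
      exact this
    have e4 : ∑ k ∈ range K', cc (2*((h+2:ℕ):ℚ)+1) (k+1) * (16/3)^(k+1) =
        2 * ∑ k ∈ range K', cc (2*((h+1:ℕ):ℚ)+1) (k+1) * (16/3)^(k+1) - 16/3 * ∑ k ∈ range K', cc (2*((h+1:ℕ):ℚ)+1) k * (16/3)^k -
          ∑ k ∈ range K', cc (2*(h:ℚ)+1) (k+1) * (16/3)^(k+1) := by
      rw [mul_sum, mul_sum, ← sum_sub_distrib, ← sum_sub_distrib]
      refine sum_congr rfl fun k _ => ?_
      rw [e1, pow_succ]
      ring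
    rw [e4, i2]
    have j1 : ∑ k ∈ range K', cc (2*((h+1:ℕ):ℚ)+1) (k+1) * (16/3)^(k+1) = ww (h+1) - (2*((h+1:ℕ):ℚ)+1) := by
      rw [← i1, cc_zero]; ring
    have j3 : ∑ k ∈ range K', cc (2*(h:ℚ)+1) (k+1) * (16/3)^(k+1) = ww h - (2*(h:ℚ)+1) := by
      rw [← i3, cc_zero]; ring
    rw [j1, j3, cc_zero]
    unfold ww
    have h3 : (-3:ℚ)^h ≠ 0 := pow_ne_zero _ (by norm_num)
    rw [pow_succ, pow_succ]
    push_cast
    field_simp
    ring

theorem gg_sum {h : ℕ} (hh : p = 2*h+1) : ∑ k ∈ range (h+1), gg p h k = ww h := by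
  rw [← cc_sum h (h+1) (by omega)]
  refine sum_congr rfl fun k _ => ?_
  have hpq : (p:ℚ) = 2*h+1 := by rw [hh]; push_cast; ring
  have h1 := cb_prod h k
  rw [cc_prod]
  unfold gg
  have h16 : (16:ℚ)^k ≠ 0 := by positivity
  have h5 : 2*(k:ℚ)+1 ≠ 0 := by positivity
  have e2 : (-16/3:ℚ)^k = (-1)^k*(16/3)^k := by rw [← mul_pow]; norm_num
  rw [e2, hpq]
  calc (2*(h:ℚ)+1)/(2*k+1) * (((h+k).choose (2*k) : ℕ) : ℚ) * ((-1)^k * (16/3)^k)
      = (2*(h:ℚ)+1)/((2*k+1) * 16^k) * ((-1:ℚ)^k * (((h+k).choose (2*k) : ℕ) : ℚ) * 16^k) * (16/3)^k := by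
        field_simp
    _ = _ := by rw [h1]; ring

theorem ww_cong (p3 : 3 < p) {h : ℕ} (hh : p = 2*h+1) : Dv p 2 (ww h - (3 + 3^(p-1))/4 * (e3 p : ℚ)) := by
  have h2 : p ≠ 2 := by omega
  have h4 := euler h2 hh 3
  have hL : (legendreSym p 3 : ℚ) = (-1)^h * e3 p := by rw [leg_3 p3 hh]; push_cast; ring
  have he : (e3 p : ℚ) * (e3 p : ℚ) = 1 := by exact_mod_cast e3_sq p
  rw [hL] at h4
  push_cast at h4
  have h5 : Dv p 1 ((e3 p : ℚ) * (-3)^h - 1) := by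
    refine Dv_eq ?_ (h4.mul0 (Dv.int (p := p) (e3 p * (-1)^h)))
    have e1 : (-3:ℚ)^h = (-1)^h * 3^h := by rw [← mul_pow]; norm_num
    rw [e1]
    push_cast
    have := sg h
    linear_combination (-(e3 p:ℚ) * (e3 p:ℚ)) * this - he
  have h6 := (h5.mul h5).mul h5
  have h7 : padicValRat p ((-3:ℚ)^h * 4) = 0 := by
    have e1 : (-3:ℚ)^h * 4 = (-1)^h * (3^h * 4^1) := by rw [← mul_assoc, ← mul_pow]; norm_num
    rw [e1]
    refine unit_mul' (p := p) (pow_ne_zero _ (by norm_num)) (by positivity) (val_neg_one_pow h) (unit_mul' (p := p) (by positivity) (by positivity) (unit3 p3 h) (unit4 p3 1))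
  have h8 := (h6.neg).div_unit h7
  refine Dv_eq ?_ (h8.mono (by norm_num))
  unfold ww
  have h3 : (-3:ℚ)^h ≠ 0 := pow_ne_zero _ (by norm_num)
  have e5 : (3:ℚ)^(p-1) = (-3)^h * (-3)^h := by
    rw [show p-1 = 2*h by omega, ← mul_pow, pow_mul]; norm_num
  rw [e5]
  field_simp
  generalize (-3:ℚ)^h = u
  linear_combination (3*u^2 - (e3 p:ℚ)*u^3) * he

theorem first (p3 : 3 < p) : Dv p 2 (∑ j ∈ range p, (T 1 1 j : ℚ) * (((2*j).choose j : ℕ) : ℚ) / 12^j - (3 + 3^(p-1))/4 * (e3 p : ℚ)) := by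
  obtain ⟨h, hh⟩ : ∃ h, p = 2*h+1 := ⟨p/2, by have := hp.out.eq_two_or_odd; omega⟩
  rw [sum_ff]
  have h1 : ∑ k ∈ range p, ff p k = ∑ k ∈ range h, ff p k + ff p h + ∑ k ∈ range h, ff p (h+1+k) := by
    have hr : range p = range ((h+1)+h) := by congr 1; omega
    rw [hr, sum_range_add, sum_range_succ]
  have h2 := gg_sum hh
  rw [sum_range_succ] at h2
  have h3 : Dv p 2 (∑ k ∈ range h, (ff p k - gg p h k)) := Dv.sum _ _ fun k hk => ff_low p3 hh (mem_range.1 hk)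
  have h4 : Dv p 2 (∑ k ∈ range h, ff p (h+1+k)) := Dv.sum _ _ fun k hk => ff_high p3 hh (by omega) (by rw [mem_range] at hk; omega)
  have h5 := ff_mid p3 hh
  have h6 := ww_cong p3 hh
  refine Dv_eq ?_ (((h3.add h5).add h4).add h6)
  rw [h1, ← h2, sum_sub_distrib]
  ring

end

end Pool.Agent.N926.Tri
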