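import Pool.Agent.N926.Tri.F

/-! the third congruence -/

set_option autoImplicit false
set_option linter.unusedVariables false
set_option linter.unusedSectionVars false

namespace Pool.Agent.N926.Tri

open Finset Pool.Agent.N926.Sup2 Pool.Agent.N926.Sup Pool.Agent.N926.F54 Pool.Agent.N926.F37 Pool.Agent.N926.Fib

theorem hockey (k N : ℕ) : ∑ n ∈ range N, ((n+k).choose (2*k)) = (N+k).choose (2*k+1) := by
  induction N with
  | zero =>
    rw [Nat.choose_eq_zero_of_lt (by omega)]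
    simp
  | succ N ih =>
    rw [sum_range_succ, ih, show N+1+k = N+k+1 by ring, Nat.choose_succ_succ]
    ring

theorem Ks_DD (i : ℕ) : (Ks i 1 : ℚ) = ∑ n ∈ range (2*i+1), DD n := by
  have h1 : ∀ n ∈ range (2*i+1), DD n = ∑ k ∈ range (2*i+1), dn n k := fun n hn => DD_ext (mem_range.1 hn)
  rw [sum_congr rfl h1, sum_comm]
  unfold Ks
  push_cast
  refine sum_congr rfl fun k _ => ?_
  unfold dn
  rw [← sum_mul, ← hockey]
  push_cast
  ring

def Th (i : ℕ) : ℚ := ∑ j ∈ range (i+1), (-1:ℚ)^j * (((i+j).choose (2*j) : ℕ) : ℚ) * (U 1 (2*j) : ℚ)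

theorem Th_eq (i : ℕ) : Th i = (-1)^i * ∑ n ∈ range (2*i+1), DD n := by
  have := congrArg (fun z : ℤ => (z:ℚ)) (lemA i 1)
  push_cast at this
  unfold Th
  rw [this, Ks_DD]

theorem Th_ext {i h : ℕ} (hi : i ≤ h) : Th i = ∑ j ∈ range (h+1), (-1:ℚ)^j * (((i+j).choose (2*j) : ℕ) : ℚ) * (U 1 (2*j) : ℚ) := by
  unfold Th
  refine sum_subset (range_mono (by omega)) fun k _ hk => ?_
  rw [mem_range] at hk
  rw [Nat.choose_eq_zero_of_lt (by omega)]
  simp

theorem wsum (j h : ℕ) : ((j:ℚ)+1) * ∑ i ∈ range h, (2*(i:ℚ)+1) * (((i+j).choose (2*j) : ℕ) : ℚ) = h * ((h:ℚ)-j) * (((h+j).choose (2*j) : ℕ) : ℚ) := by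
  induction h with
  | zero => simp
  | succ h ih =>
    rw [sum_range_succ, mul_add, ih]
    have h1 := ch_top (h+j) (2*j)
    rw [show h+j+1 = h+1+j by ring] at h1
    push_cast at h1 ⊢
    linear_combination (-(h:ℚ)-1) * h1

def Zh (h : ℕ) : ℚ := ∑ j ∈ range (h+1), (-1:ℚ)^j * (((h+j).choose (2*j) : ℕ) : ℚ) * (U 1 (2*j) : ℚ) / (j+1)

def Mh (h : ℕ) : ℚ := h * Th h + ∑ i ∈ range h, (2*(i:ℚ)+1) * Th i

theorem Zh_eq (h : ℕ) : (h:ℚ)*(h+1) * Zh h = Mh h := by
  unfold Mh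
  have h1 : ∑ i ∈ range h, (2*(i:ℚ)+1) * Th i = ∑ j ∈ range (h+1), ((-1:ℚ)^j * (U 1 (2*j) : ℚ)) * ∑ i ∈ range h, (2*(i:ℚ)+1) * (((i+j).choose (2*j) : ℕ) : ℚ) := by
    have e1 : ∀ i ∈ range h, (2*(i:ℚ)+1) * Th i = ∑ j ∈ range (h+1), ((-1:ℚ)^j * (U 1 (2*j) : ℚ)) * ((2*(i:ℚ)+1) * (((i+j).choose (2*j) : ℕ) : ℚ)) := by
      intro i hi
      rw [mem_range] at hi
      rw [Th_ext (show i ≤ h by omega), mul_sum]
      exact sum_congr rfl fun j _ => by ring
    rw [sum_congr rfl e1, sum_comm]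
    refine sum_congr rfl fun j _ => ?_
    rw [mul_sum]
  rw [h1]
  unfold Th Zh
  rw [mul_sum, mul_sum, ← sum_add_distrib]
  refine sum_congr rfl fun j _ => ?_
  have h2 := wsum j h
  have hj : (j:ℚ)+1 ≠ 0 := by positivity
  have h3 : ∑ i ∈ range h, (2*(i:ℚ)+1) * (((i+j).choose (2*j) : ℕ) : ℚ) = h * ((h:ℚ)-j) * (((h+j).choose (2*j) : ℕ) : ℚ) / (j+1) := by
    rw [eq_div_iff hj]; linarith
  rw [h3]
  field_simp
  ring

def Ah (h : ℕ) : ℚ := ∑ n ∈ range (2*h+1), sn n * DD n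

theorem sn_odd (h : ℕ) : sn (2*h+1) = (-1)^h := by unfold sn; rw [show (2*h+1)/2 = h by omega]
theorem sn_even (h : ℕ) : sn (2*h) = (-1)^h := by unfold sn; rw [show (2*h)/2 = h by omega]

theorem Mh_eq (h : ℕ) : 12 * Mh h = -4 * Ah h + (2*h+1) * (-1)^h * (DD (2*h) + DD (2*h+1)) := by
  induction h with
  | zero => simp [Mh, Ah, DD0, DD1, sn]; norm_num
  | succ h ih =>
    have h1 : Mh (h+1) = Mh h + (h+1) * (Th (h+1) + Th h) := by
      unfold Mh
      rw [sum_range_succ]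
      push_cast
      ring
    have h2 : Th (h+1) + Th h = (-1)^(h+1) * (DD (2*h+1) + DD (2*h+2)) := by
      rw [Th_eq, Th_eq, show 2*(h+1)+1 = 2*h+1+1+1 by ring, sum_range_succ, sum_range_succ, pow_succ]
      ring
    have h3 : Ah (h+1) = Ah h + (-1)^h * DD (2*h+1) - (-1)^h * DD (2*h+2) := by
      unfold Ah
      rw [show 2*(h+1)+1 = 2*h+1+1+1 by ring, sum_range_succ, sum_range_succ, sn_odd, show 2*h+1+1 = 2*(h+1) by ring, sn_even, pow_succ]
      ring
    have r1 := DD_rec (2*h)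
    have r2 := DD_rec (2*h+1)
    rw [h1, h2, h3, mul_add, ih, show 2*(h+1) = 2*h+2 by ring, pow_succ]
    rw [show 2*h+1+2 = 2*h+2+1 by ring, show 2*h+1+1 = 2*h+2 by ring] at r2
    push_cast at r1 r2 ⊢
    linear_combination (-1:ℚ)^h * r1 + (-1:ℚ)^h * r2

section
variable {p : ℕ} [hp : Fact p.Prime]

theorem dv_of_nat_dvd {n : ℕ} (h : p ∣ n) : Dv p 1 (n:ℚ) := by
  have := Dv.of_dvd (p := p) (n := 1) (z := (n : ℤ)) (by rw [pow_one]; exact_mod_cast h)
  simpa using this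

theorem dn_mul {n k : ℕ} (h : k ≤ n) : dn n k = (((n+k).choose k : ℕ) : ℚ) * ((n.choose k : ℕ) : ℚ) := by
  unfold dn
  have := Nat.choose_mul (n := n+k) (k := 2*k) (s := k) (by omega)
  rw [show n+k-k = n by omega, show 2*k-k = k by omega] at this
  exact_mod_cast this

theorem DD_pm1 : Dv p 1 (DD (p-1) - 1) := by
  obtain ⟨q, hq⟩ : ∃ q, p = q+1 := ⟨p-1, by have := hp.out.one_lt; omega⟩
  have h1 : DD (p-1) - 1 = ∑ k ∈ range q, dn (p-1) (k+1) := by
    rw [DD_ext (show p-1 < q+1 by omega), sum_range_succ', dn_zero]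
    ring
  rw [h1]
  refine Dv.sum _ _ fun k hk => ?_
  rw [mem_range] at hk
  rw [dn_mul (by omega)]
  have h2 : p ∣ (p-1+(k+1)).choose (k+1) := hp.out.dvd_choose (by omega) (by omega) (by omega)
  exact (dv_of_nat_dvd h2).mul0 (Dv.nat _)

theorem DD_p : Dv p 1 (DD p - 3) := by
  obtain ⟨q, hq⟩ : ∃ q, p = q+1 := ⟨p-1, by have := hp.out.one_lt; omega⟩
  have h1 : DD p - 3 = ∑ k ∈ range q, dn p (k+1) + ((((2*p).choose p : ℕ) : ℚ) - 2) := by
    have e : dn p p = (((2*p).choose p : ℕ) : ℚ) := by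
      rw [dn_mul (le_refl p), Nat.choose_self, show p + p = 2*p by ring]; push_cast; ring
    rw [DD_ext (show p < q+1+1 by omega), sum_range_succ, ← e]
    rw [sum_range_succ', dn_zero, show q+1 = p by omega]
    ring
  rw [h1]
  refine (Dv.sum _ _ fun k hk => ?_).add ((cpp (p := p)).mono (by norm_num))
  rw [mem_range] at hk
  rw [dn_mul (by omega)]
  have h3 := hp.out.dvd_choose_self (show k+1 ≠ 0 by omega) (show k+1 < p by omega)
  rw [mul_comm]
  exact (dv_of_nat_dvd h3).mul0 (Dv.nat _)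

theorem chp_prod (k : ℕ) : (((p+k).choose k : ℕ) : ℚ) = ∏ i ∈ range k, (1 + (p:ℚ)/((i:ℚ)+1)) := by
  induction k with
  | zero => simp
  | succ k ih =>
    rw [prod_range_succ, ← ih]
    have h1 := ch_diag (p+k) k
    rw [show p+k+1 = p+(k+1) by ring] at h1
    have hk : (k:ℚ)+1 ≠ 0 := by positivity
    push_cast at h1
    field_simp
    linarith

theorem chp_one {k : ℕ} (hk : k < p) : Dv p 1 ((((p+k).choose k : ℕ) : ℚ) - 1) := by
  rw [chp_prod]
  refine Dv.prod1 (p := p) (n := 1) (by norm_num) (range k) (fun j => (p:ℚ)/((j:ℚ)+1)) (fun j hj => ?_)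
  rw [mem_range] at hj
  have hnd : ¬ p ∣ j+1 := Nat.not_dvd_of_pos_of_lt (by omega) (by omega)
  have := unit_nat hnd
  push_cast at this
  exact (Dv.p1 (p := p)).div_unit this

/-- `(2k+1) s_k c_k ≡ (-1)^{h+k} p` -/
theorem col_cong (p3 : 3 < p) {h : ℕ} (hh : p = 2*h+1) {k : ℕ} (hk : k < p) :
    Dv p 2 ((2*(k:ℚ)+1) * ∑ n ∈ range p, sn n * pc n k - (-1)^(h+k) * p) := by
  have h2 : p ≠ 2 := by omega
  obtain ⟨J, hJ, hs, hJp⟩ : ∃ J, (2*(k:ℚ)+1) * ∑ n ∈ range p, sn n * pc n k = sn k * (p * (((p+k).choose k : ℕ) : ℚ) * (((p-1).choose J : ℕ) : ℚ) / 2^(p-1)) ∧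
      sn k * (-1)^J = (-1)^(h+k) ∧ J < p := by
    rcases Nat.even_or_odd k with ⟨i, hi⟩ | ⟨i, hi⟩
    · refine ⟨h - i, ?_, ?_, by omega⟩
      · have e : p = k+2*(h-i)+1 := by omega
        rw [← ll_e e, ← colsum, ← e]
      · unfold sn
        rw [show k/2 = i by omega, ← pow_add, show i+(h-i) = h by omega, hi, pow_add (-1:ℚ) h, ← two_mul, pow_mul (-1:ℚ) 2]
        simp
    · refine ⟨h - i - 1, ?_, ?_, by omega⟩
      · have e : p = k+2*(h-i-1)+2 := by omega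
        rw [← ll_o e, ← colsum', ← e]
      · unfold sn
        rw [show k/2 = i by omega, ← pow_add, show i+(h-i-1) = h-1 by omega, hi, show h+(2*i+1) = (h-1)+2*(i+1) by omega, pow_add (-1:ℚ) (h-1), pow_mul (-1:ℚ) 2]
        simp
  rw [hJ]
  have a1 := chp_one hk
  have a2 := pm1 (p := p) hJp
  have a3 := fermat (nd2 p3)
  push_cast at a3
  have hsn : Dv p 0 (sn k) := by
    unfold sn
    have := Dv.int (p := p) ((-1)^(k/2))
    push_cast at this
    exact this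
  -- sn k * C * D - (-1)^(h+k) * 2^(p-1)
  have a4 : Dv p 1 ((((p+k).choose k : ℕ) : ℚ) * (((p-1).choose J : ℕ) : ℚ) - (-1)^J) := by
    refine Dv_eq ?_ ((a1.mul0 (Dv.nat (p := p) ((p-1).choose J))).add a2)
    ring
  have a5 := (a4.mul0 hsn).sub (a3.mul0 (Dv.int (p := p) ((-1)^(h+k))))
  have a6 := ((Dv.p1 (p := p)).mul a5).div_unit (two_pow_unit (p := p) h2 (p-1))
  refine Dv_eq ?_ a6
  push_cast
  rw [← hs]
  have h22 : (2:ℚ)^(p-1) ≠ 0 := by positivity
  field_simp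
  ring

def dlt (p h k : ℕ) : ℚ := ∑ n ∈ range p, sn n * pc n k - (-1)^h * ((((p+k).choose (2*k+1) : ℕ) : ℚ) * (((2*k).choose k : ℕ) : ℚ))

theorem dlt_cong (p3 : 3 < p) {h : ℕ} (hh : p = 2*h+1) {k : ℕ} (hk : k < p) (hkh : k ≠ h) : Dv p 2 (dlt p h k) := by
  have hu : padicValRat p (2*(k:ℚ)+1) = 0 := by
    have := unit_nat (p := p) (n := 2*k+1) (by
      intro hd
      obtain ⟨c, hc⟩ := hd
      have c1 : c < 2 := by
        by_contra hcc
        have : p * 2 ≤ p * c := Nat.mul_le_mul_left _ (by omega)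
        omega
      interval_cases c <;> omega)
    push_cast at this
    exact this
  refine Dv.of_unit_mul hu (by positivity) ?_
  have h1 := col_cong p3 hh hk
  have h2 := ((kap_cong (p := p) hk).mono (show (2:ℤ) ≤ 3 by norm_num)).mul0 (Dv.int (p := p) ((-1)^h))
  refine Dv_eq ?_ (h1.sub h2)
  unfold dlt
  push_cast
  rw [pow_add]
  ring

theorem A_eq {h : ℕ} (hh : p = 2*h+1) (x : ℤ) : ∑ n ∈ range p, sn n * PP p n x - (-1)^h * (Ks h x : ℚ) = ∑ k ∈ range p, dlt p h k * (x:ℚ)^k := by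
  have h1 : ∑ n ∈ range p, sn n * PP p n x = ∑ k ∈ range p, (∑ n ∈ range p, sn n * pc n k) * (x:ℚ)^k := by
    have e1 : ∀ n ∈ range p, sn n * PP p n x = ∑ k ∈ range p, (sn n * pc n k) * (x:ℚ)^k := by
      intro n _
      unfold PP
      rw [mul_sum]
      exact sum_congr rfl fun k _ => by ring
    rw [sum_congr rfl e1, sum_comm]
    exact sum_congr rfl fun k _ => by rw [sum_mul]
  rw [h1]
  unfold Ks dlt
  rw [← hh]
  push_cast
  rw [mul_sum, ← sum_sub_distrib]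
  refine sum_congr rfl fun k _ => ?_
  ring

theorem dlt_mid (p3 : 3 < p) {h : ℕ} (hh : p = 2*h+1) : Dv p 2 (dlt p h h) := by
  have h2 : p ≠ 2 := by omega
  have h1 := A_eq hh 1
  have h3 := Ks1 h2 hh
  have h4 : ∑ n ∈ range p, sn n * PP p n ((1:ℤ):ℚ) = 1 := by
    have e1 : ∀ n ∈ range p, sn n * PP p n ((1:ℤ):ℚ) = sn n := by
      intro n hn
      push_cast
      rw [PP_one n p (mem_range.1 hn), mul_one]
    rw [sum_congr rfl e1, hh, sn_sum]
  rw [h4] at h1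
  have h5 : ∑ k ∈ range p, dlt p h k * ((1:ℤ):ℚ)^k = dlt p h h + ∑ k ∈ (range p).erase h, dlt p h k := by
    rw [add_sum_erase (range p) (fun k => dlt p h k) (mem_range.2 (by omega))]
    refine sum_congr rfl fun k _ => ?_
    push_cast
    rw [one_pow, mul_one]
  rw [h5] at h1
  have h6 : Dv p 2 (∑ k ∈ (range p).erase h, dlt p h k) := Dv.sum _ _ fun k hk => by
    rw [mem_erase, mem_range] at hk
    exact dlt_cong p3 hh hk.2 hk.1
  refine Dv_eq ?_ ((h3.neg).sub h6)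
  linarith

theorem Ah_cong (p3 : 3 < p) {h : ℕ} (hh : p = 2*h+1) : Dv p 2 (Ah h - (legendreSym p 3 : ℚ)) := by
  have h1 := A_eq hh 3
  have h4 : ∑ n ∈ range p, sn n * PP p n ((3:ℤ):ℚ) = Ah h := by
    unfold Ah
    rw [← hh]
    refine sum_congr rfl fun n hn => ?_
    push_cast
    rw [PP_three n p (mem_range.1 hn)]
  rw [h4] at h1
  have h5 : Dv p 2 (∑ k ∈ range p, dlt p h k * ((3:ℤ):ℚ)^k) := Dv.sum _ _ fun k hk => by
    have h7 := Dv.int (p := p) (3^k)
    push_cast at h7 ⊢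
    by_cases hkh : k = h
    · subst hkh
      exact (dlt_mid p3 hh).mul0 h7
    · exact (dlt_cong p3 hh (mem_range.1 hk) hkh).mul0 h7
  rw [← h1] at h5
  refine Dv_eq ?_ (h5.add (Ks3 p3 hh))
  ring

theorem third (p3 : 3 < p) {h : ℕ} (hh : p = 2*h+1) :
    Dv p 2 (∑ j ∈ range (h+1), (U 1 (2*j) : ℚ) * ((((2*j).choose j : ℕ) : ℚ) / (j+1)) / 16^j - 4/3 * ((legendreSym p 3 : ℚ) - p * (legendreSym p (-1) : ℚ))) := by
  have h2 : p ≠ 2 := by omega
  have h1 : Dv p 2 (∑ j ∈ range (h+1), (U 1 (2*j) : ℚ) * ((((2*j).choose j : ℕ) : ℚ) / (j+1)) / 16^j - Zh h) := by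
    unfold Zh
    rw [← sum_sub_distrib]
    refine Dv.sum _ _ fun j hj => ?_
    rw [mem_range] at hj
    have hu : padicValRat p ((j:ℚ)+1) = 0 := by
      have := unit_nat (p := p) (n := j+1) (Nat.not_dvd_of_pos_of_lt (by omega) (by omega))
      push_cast at this
      exact this
    have h3 := ((cb_cong h2 hh (show j ≤ h by omega)).mul0 (Dv.int (p := p) (U 1 (2*j)))).div_unit hu
    refine Dv_eq ?_ h3
    ring
  have hL : (legendreSym p (-1) : ℚ) = (-1)^h := by rw [leg_m1 h2 hh]; push_cast; ring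
  rw [hL]
  have hpq : (p:ℚ) = 2*h+1 := by rw [hh]; push_cast; ring
  have h3 : Dv p 2 (Zh h - 4/3 * ((legendreSym p 3 : ℚ) - p * (-1)^h)) := by
    have hu : padicValRat p ((p:ℚ)^2 - 1) = 0 := by
      have hp1 := hp.out.one_lt
      have hpp : 1 ≤ p^2 := Nat.one_le_pow _ _ (by omega)
      have := unit_nat (p := p) (n := p^2-1) (by
        intro hd
        have h5 : p ∣ p^2 := ⟨p, by ring⟩
        have h6 := (Nat.dvd_sub h5 hd)
        rw [show p^2 - (p^2-1) = 1 by omega] at h6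
        exact absurd (Nat.le_of_dvd (by norm_num) h6) (by omega))
      rw [Nat.cast_sub hpp] at this
      push_cast at this
      exact this
    have hu3 : padicValRat p (3:ℚ) = 0 := by
      have := unit3 (p := p) p3 1
      rwa [pow_one] at this
    have hne : (p:ℚ)^2 - 1 ≠ 0 := by
      have : (3:ℚ) < p := by exact_mod_cast p3
      nlinarith
    refine Dv.of_unit_mul hu hne ?_
    refine Dv.of_unit_mul hu3 (by norm_num) ?_
    have e1 := Zh_eq h
    have e2 := Mh_eq h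
    have a1 := Ah_cong p3 hh
    have a2 := DD_pm1 (p := p)
    have a3 := DD_p (p := p)
    rw [show p-1 = 2*h by omega] at a2
    have a4 := ((Dv.p1 (p := p)).mul (a2.add a3)).mul0 (Dv.int (p := p) ((-1)^h))
    have a5 := (Dv.p_pow (p := p) 2).mul0 (((Dv.int (p := p) (legendreSym p 3)).sub ((Dv.nat (p := p) p).mul (Dv.int (p := p) ((-1)^h)))))
    have a6 := ((a1.mul0 (Dv.int (p := p) (-4))).add a4).sub (a5.mul0 (Dv.int (p := p) 4))
    refine Dv_eq ?_ a6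
    have hd : DD p = DD (2*h+1) := by rw [hh]
    rw [hd]
    push_cast
    rw [← e1, ← hpq] at e2
    rw [hpq] at e2 ⊢
    linear_combination (-1:ℚ) * e2
  refine Dv_eq ?_ (h1.add h3)
  ring

end

end Pool.Agent.N926.Tri
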