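import Mathlib

/-! exact identities for MP_20e244 -/

set_option autoImplicit false
set_option linter.unusedVariables false

namespace Pool.Agent.N926.Tri

open Finset Polynomial

/-- coefficient of `x^n` in `(x²+bx+c)^n` -/
noncomputable def T (b c : ℤ) (n : ℕ) : ℤ := ((X^2 + C b * X + C c : ℤ[X])^n).coeff n

theorem T_expand (a b : ℤ) (n : ℕ) : T (2*a+b) (a^2) n =
    ∑ k ∈ range (n+1), (n.choose k : ℤ) * b^(n-k) * (((2*k).choose k : ℕ) : ℤ) * a^k := by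
  unfold T
  have e : (X^2 + C (2*a+b) * X + C (a^2) : ℤ[X]) = (X + C a)^2 + C b * X := by
    simp only [C_add, C_mul, C_pow]
    have : (C 2 : ℤ[X]) = 2 := rfl
    rw [this]
    ring
  rw [e, add_pow, finset_sum_coeff]
  refine sum_congr rfl fun k hk => ?_
  rw [mem_range] at hk
  have h1 : ((X + C a)^2)^k * (C b * X)^(n-k) * ((n.choose k : ℕ) : ℤ[X]) =
      C (b^(n-k) * (n.choose k : ℤ)) * ((X + C a)^(2*k) * X^(n-k)) := by
    rw [mul_pow, ← pow_mul]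
    simp only [C_mul, C_pow]
    have : (C ((n.choose k : ℕ) : ℤ) : ℤ[X]) = ((n.choose k : ℕ) : ℤ[X]) := by simp
    rw [this]
    ring
  rw [h1, coeff_C_mul, coeff_mul_X_pow', if_pos (by omega), show n - (n-k) = k by omega, coeff_X_add_C_pow,
    show 2*k - k = k by omega]
  ring

section
variable {R : Type*} [CommRing R]

def bl (h : ℕ) (z : R) : R := ∑ j ∈ range (h+1), (((h+j).choose (2*j) : ℕ) : R) * z^j
def Bl (h : ℕ) (z : R) : R := ∑ j ∈ range (h+1), (((h+1+j).choose (2*j+1) : ℕ) : R) * z^j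

theorem Bl_succ (h : ℕ) (z : R) : Bl (h+1) z = Bl h z + bl (h+1) z := by
  have h1 : Bl h z = ∑ j ∈ range (h+1+1), (((h+1+j).choose (2*j+1) : ℕ) : R) * z^j := by
    rw [sum_range_succ, Nat.choose_eq_zero_of_lt (show h+1+(h+1) < 2*(h+1)+1 by omega)]
    simp [Bl]
  rw [h1]
  unfold Bl bl
  rw [← sum_add_distrib]
  refine sum_congr rfl fun j _ => ?_
  have : (h+1+1+j).choose (2*j+1) = (h+1+j).choose (2*j) + (h+1+j).choose (2*j+1) := by
    rw [show h+1+1+j = (h+1+j)+1 by ring, Nat.choose_succ_succ]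
  rw [this]
  push_cast
  ring

theorem bl_succ (h : ℕ) (z : R) : bl (h+1) z = z * Bl h z + bl h z := by
  have h1 : bl h z = ∑ j ∈ range (h+1), (((h+(j+1)).choose (2*(j+1)) : ℕ) : R) * z^(j+1) + 1 := by
    have : bl h z = ∑ j ∈ range (h+1+1), (((h+j).choose (2*j) : ℕ) : R) * z^j := by
      rw [sum_range_succ, Nat.choose_eq_zero_of_lt (show h+(h+1) < 2*(h+1) by omega)]
      simp [bl]
    rw [this, sum_range_succ']
    simp
  rw [h1]
  unfold bl Bl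
  rw [sum_range_succ', mul_sum, ← add_assoc, ← sum_add_distrib]
  simp only [add_zero, mul_zero, Nat.choose_zero_right, Nat.cast_one, pow_zero, mul_one]
  congr 1
  refine sum_congr rfl fun j _ => ?_
  have : (h+1+(j+1)).choose (2*(j+1)) = (h+1+j).choose (2*j+1) + (h+(j+1)).choose (2*(j+1)) := by
    rw [show h+1+(j+1) = (h+1+j)+1 by ring, show 2*(j+1) = (2*j+1)+1 by ring, Nat.choose_succ_succ,
      show h+(j+1) = h+1+j by ring]
  rw [this]
  push_cast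
  ring

theorem Bl_rec (n : ℕ) (a : R) : Bl (n+2) a = (a+2) * Bl (n+1) a - Bl n a := by
  have h1 := Bl_succ (n+1) a
  have h2 := bl_succ (n+1) a
  have h3 := Bl_succ n a
  rw [h1, h2]
  have : bl (n+1) a = Bl (n+1) a - Bl n a := by rw [h3]; ring
  rw [this]
  ring

theorem bl_sq (a : R) : ∀ h : ℕ, bl h (-(a+2)^2) = (-1)^h * Bl (2*h) a ∧
    (a+2) * Bl h (-(a+2)^2) = (-1)^h * Bl (2*h+1) a
  | 0 => by
    constructor
    · simp [bl, Bl]
    · simp [Bl, sum_range_succ]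
      ring
  | (h+1) => by
    obtain ⟨i1, i2⟩ := bl_sq a h
    have e1 : bl (h+1) (-(a+2)^2) = (-1)^(h+1) * Bl (2*(h+1)) a := by
      rw [bl_succ, i1, show 2*(h+1) = 2*h+2 by ring, Bl_rec, show -(a+2)^2 * Bl h (-(a+2)^2) = -(a+2) * ((a+2) * Bl h (-(a+2)^2)) by ring, i2]
      ring
    refine ⟨e1, ?_⟩
    rw [Bl_succ, mul_add, e1, i2, show 2*(h+1)+1 = (2*h+1)+2 by ring, Bl_rec, show 2*(h+1) = 2*h+1+1 by ring]
    ring

end

theorem lemA_coeff (h k : ℕ) (hk : k < 2*h+1) :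
    ∑ j ∈ range (h+1), (-1:ℤ)^j * (((h+j).choose (2*j) : ℕ) : ℤ) * ((((2*j).choose k : ℕ) : ℤ) * 2^(2*j-k)) =
      (-1)^h * (((2*h+1+k).choose (2*k+1) : ℕ) : ℤ) := by
  have h1 := congrArg (fun f : ℤ[X] => f.coeff k) (bl_sq (X : ℤ[X]) h).1
  simp only [bl, Bl] at h1
  rw [finset_sum_coeff] at h1
  have e1 : ∀ j ∈ range (h+1), ((((h+j).choose (2*j) : ℕ) : ℤ[X]) * (-(X+2)^2)^j).coeff k =
      (-1:ℤ)^j * (((h+j).choose (2*j) : ℕ) : ℤ) * ((((2*j).choose k : ℕ) : ℤ) * 2^(2*j-k)) := by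
    intro j _
    have : (((h+j).choose (2*j) : ℕ) : ℤ[X]) * (-(X+2)^2)^j = C ((-1:ℤ)^j * (((h+j).choose (2*j) : ℕ) : ℤ)) * (X + C 2)^(2*j) := by
      rw [neg_pow, ← pow_mul]
      simp only [C_mul, C_pow]
      have a1 : (C (((h+j).choose (2*j) : ℕ) : ℤ) : ℤ[X]) = (((h+j).choose (2*j) : ℕ) : ℤ[X]) := by simp
      have a2 : (C 2 : ℤ[X]) = 2 := rfl
      have a3 : (C (-1) : ℤ[X]) = -1 := by simp
      rw [a1, a2, a3]
      ring
    rw [this, coeff_C_mul, coeff_X_add_C_pow]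
    ring
  rw [sum_congr rfl e1] at h1
  rw [h1]
  have e2 : ((-1:ℤ[X])^h * ∑ j ∈ range (2*h+1), (((2*h+1+j).choose (2*j+1) : ℕ) : ℤ[X]) * X^j) =
      ∑ j ∈ range (2*h+1), C ((-1:ℤ)^h * (((2*h+1+j).choose (2*j+1) : ℕ) : ℤ)) * X^j := by
    rw [mul_sum]
    refine sum_congr rfl fun j _ => ?_
    simp only [C_mul, C_pow]
    have a1 : (C (((2*h+1+j).choose (2*j+1) : ℕ) : ℤ) : ℤ[X]) = (((2*h+1+j).choose (2*j+1) : ℕ) : ℤ[X]) := by simp
    have a3 : (C (-1) : ℤ[X]) = -1 := by simp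
    rw [a1, a3]
    ring
  rw [e2, finset_sum_coeff]
  simp only [coeff_C_mul, coeff_X_pow]
  rw [sum_eq_single k]
  · simp
  · intro b _ hb
    rw [if_neg (by omega), mul_zero]
  · intro hn
    exact absurd (mem_range.2 hk) hn

/-- `U_n(e)` -/
def U (e : ℤ) (n : ℕ) : ℤ := ∑ k ∈ range (n+1), (n.choose k : ℤ) * 2^(n-k) * (((2*k).choose k : ℕ) : ℤ) * e^k

theorem U_ext (e : ℤ) {n N : ℕ} (h : n ≤ N) : U e n = ∑ k ∈ range (N+1), (n.choose k : ℤ) * 2^(n-k) * (((2*k).choose k : ℕ) : ℤ) * e^k := by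
  unfold U
  refine sum_subset (range_mono (by omega)) fun k _ hk => ?_
  rw [mem_range] at hk
  rw [Nat.choose_eq_zero_of_lt (by omega)]
  simp

/-- `κ`-sum -/
def Ks (h : ℕ) (e : ℤ) : ℤ := ∑ k ∈ range (2*h+1), (((2*h+1+k).choose (2*k+1) : ℕ) : ℤ) * (((2*k).choose k : ℕ) : ℤ) * e^k

theorem lemA (h : ℕ) (e : ℤ) : ∑ j ∈ range (h+1), (-1:ℤ)^j * (((h+j).choose (2*j) : ℕ) : ℤ) * U e (2*j) = (-1)^h * Ks h e := by
  have h1 : ∀ j ∈ range (h+1), (-1:ℤ)^j * (((h+j).choose (2*j) : ℕ) : ℤ) * U e (2*j) =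
      ∑ k ∈ range (2*h+1), ((-1:ℤ)^j * (((h+j).choose (2*j) : ℕ) : ℤ) * ((((2*j).choose k : ℕ) : ℤ) * 2^(2*j-k))) * ((((2*k).choose k : ℕ) : ℤ) * e^k) := by
    intro j hj
    rw [mem_range] at hj
    rw [U_ext e (show 2*j ≤ 2*h by omega), mul_sum]
    exact sum_congr rfl fun k _ => by ring
  rw [sum_congr rfl h1, sum_comm]
  unfold Ks
  rw [mul_sum]
  refine sum_congr rfl fun k hk => ?_
  rw [← sum_mul, lemA_coeff h k (mem_range.1 hk)]
  ring

theorem T_41 (n : ℕ) : T 4 1 n = U 1 n := by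
  have := T_expand 1 2 n
  norm_num at this
  rw [this]
  unfold U
  exact sum_congr rfl fun k _ => by ring

theorem T_89 (n : ℕ) : T 8 9 n = U 3 n := by
  have := T_expand 3 2 n
  norm_num at this
  rw [this]
  unfold U
  exact sum_congr rfl fun k _ => by ring

theorem T_34 (j : ℕ) : (4:ℤ)^j * T 3 4 (2*j) = U (-4) (2*j) := by
  have := T_expand 2 (-1) (2*j)
  norm_num at this
  rw [this]
  unfold U
  rw [mul_sum]
  refine sum_congr rfl fun k hk => ?_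
  rw [mem_range] at hk
  obtain ⟨d, hd⟩ : ∃ d, 2*j = k + d := ⟨2*j-k, by omega⟩
  have e1 : (4:ℤ)^j = 2^k * 2^d := by
    rw [← pow_add, ← hd, pow_mul]
    norm_num
  have e3 : (-1:ℤ)^d = (-1)^k := by
    have h4 : (-1:ℤ)^(k+d) = 1 := by rw [← hd, pow_mul]; simp
    have h5 : (-1:ℤ)^k * (-1)^k = 1 := by rw [← mul_pow]; simp
    rw [pow_add] at h4
    calc (-1:ℤ)^d = ((-1)^k * (-1)^k) * (-1)^d := by rw [h5, one_mul]
      _ = (-1)^k * ((-1)^k * (-1)^d) := by ring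
      _ = _ := by rw [h4, mul_one]
  have e4 : (-4:ℤ)^k = (-1)^k * 2^k * 2^k := by
    rw [← mul_pow, ← mul_pow]; norm_num
  rw [show 2*j-k = d by omega, e1, e3, e4]
  ring

theorem T_11 (n : ℕ) : T 1 1 n = ∑ k ∈ range (n+1), (n.choose k : ℤ) * 3^(n-k) * (((2*k).choose k : ℕ) : ℤ) * (-1)^k := by
  have := T_expand (-1) 3 n
  norm_num at this
  exact this

end Pool.Agent.N926.Tri
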