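import Pool.Agent.N926.Tri.A
import Pool.Agent.N926.Fib.B

/-! product formulas and the congruence for the `κ`-sum -/

set_option autoImplicit false
set_option linter.unusedVariables false
set_option linter.unusedSectionVars false

namespace Pool.Agent.N926.Tri

open Finset Pool.Agent.N926.Sup2 Pool.Agent.N926.Sup Pool.Agent.N926.F54 Pool.Agent.N926.F37 Pool.Agent.N926.Fib

theorem ch_up (N r : ℕ) : ((r:ℚ)+1) * ((N.choose (r+1) : ℕ) : ℚ) = ((N:ℚ)-r) * ((N.choose r : ℕ) : ℚ) := by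
  by_cases h : r ≤ N
  · have := Nat.choose_succ_right_eq N r
    have h2 := congrArg (fun n : ℕ => (n:ℚ)) this
    push_cast [Nat.cast_sub h] at h2
    linarith
  · rw [Nat.choose_eq_zero_of_lt (show N < r+1 by omega), Nat.choose_eq_zero_of_lt (show N < r by omega)]
    simp

theorem ch_diag (N r : ℕ) : ((r:ℚ)+1) * (((N+1).choose (r+1) : ℕ) : ℚ) = ((N:ℚ)+1) * ((N.choose r : ℕ) : ℚ) := by
  have := Nat.add_one_mul_choose_eq N r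
  have h2 := congrArg (fun n : ℕ => (n:ℚ)) this
  push_cast at h2
  linarith

theorem ch_two (N r : ℕ) : ((r:ℚ)+2) * ((r:ℚ)+1) * (((N+1).choose (r+2) : ℕ) : ℚ) = ((N:ℚ)+1) * ((N:ℚ)-r) * ((N.choose r : ℕ) : ℚ) := by
  have h1 := ch_up N r
  have h2 := ch_diag N (r+1)
  push_cast at h2
  have : ((r:ℚ)+2) * ((r:ℚ)+1) * (((N+1).choose (r+2) : ℕ) : ℚ) = ((r:ℚ)+1) * (((r:ℚ)+1+1) * (((N+1).choose (r+1+1) : ℕ) : ℚ)) := by ring_nf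
  rw [this, h2, show ((r:ℚ)+1) * (((N:ℚ)+1) * ((N.choose (r+1) : ℕ) : ℚ)) = ((N:ℚ)+1) * (((r:ℚ)+1) * ((N.choose (r+1) : ℕ) : ℚ)) by ring, h1]
  ring

theorem cb_up (k : ℕ) : ((k:ℚ)+1) * (((2*(k+1)).choose (k+1) : ℕ) : ℚ) = 2*(2*(k:ℚ)+1) * (((2*k).choose k : ℕ) : ℚ) := by
  have := Nat.succ_mul_centralBinom_succ k
  unfold Nat.centralBinom at this
  have h2 := congrArg (fun n : ℕ => (n:ℚ)) this
  push_cast at h2
  linarith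

theorem cb_prod (h : ℕ) : ∀ j : ℕ, (-1:ℚ)^j * (((h+j).choose (2*j) : ℕ) : ℚ) * 16^j =
    (((2*j).choose j : ℕ) : ℚ) * ∏ i ∈ range j, (1 - (2*(h:ℚ)+1)^2/(2*(i:ℚ)+1)^2)
  | 0 => by simp
  | (j+1) => by
    have ih := cb_prod h j
    have h1 := ch_two (h+j) (2*j)
    have h2 := cb_up j
    push_cast at h1
    rw [prod_range_succ]
    have hj1 : (j:ℚ)+1 ≠ 0 := by positivity
    have hj2 : 2*(j:ℚ)+1 ≠ 0 := by positivity
    have e1 : (((h+(j+1)).choose (2*(j+1)) : ℕ) : ℚ) = ((h:ℚ)+j+1) * ((h:ℚ)-j) * (((h+j).choose (2*j) : ℕ) : ℚ) / ((2*(j:ℚ)+2) * (2*(j:ℚ)+1)) := by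
      rw [eq_div_iff (by positivity), show h+(j+1) = h+j+1 by ring, show 2*(j+1) = 2*j+2 by ring]
      linarith
    have e2 : (((2*(j+1)).choose (j+1) : ℕ) : ℚ) = 2*(2*(j:ℚ)+1) * (((2*j).choose j : ℕ) : ℚ) / ((j:ℚ)+1) := by
      rw [eq_div_iff hj1]; linarith
    rw [e1, e2]
    have e3 : 2*(2*(j:ℚ)+1) * (((2*j).choose j : ℕ) : ℚ) / ((j:ℚ)+1) * ((∏ i ∈ range j, (1 - (2*(h:ℚ)+1)^2/(2*(i:ℚ)+1)^2)) * (1 - (2*(h:ℚ)+1)^2/(2*(j:ℚ)+1)^2)) =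
        ((((2*j).choose j : ℕ) : ℚ) * ∏ i ∈ range j, (1 - (2*(h:ℚ)+1)^2/(2*(i:ℚ)+1)^2)) * (2*(2*(j:ℚ)+1)/((j:ℚ)+1) * (1 - (2*(h:ℚ)+1)^2/(2*(j:ℚ)+1)^2)) := by ring
    rw [e3, ← ih]
    field_simp
    ring

theorem kap_prod (n : ℕ) : ∀ k : ℕ, (2*(k:ℚ)+1) * ((((n+k).choose (2*k+1) : ℕ) : ℚ) * (((2*k).choose k : ℕ) : ℚ)) =
    n * ((-1)^k * ∏ i ∈ range k, (1 - (n:ℚ)^2/((i:ℚ)+1)^2))
  | 0 => by simp
  | (k+1) => by
    have ih := kap_prod n k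
    have h1 := ch_two (n+k) (2*k+1)
    have h2 := cb_up k
    push_cast at h1
    rw [prod_range_succ]
    have hj1 : (k:ℚ)+1 ≠ 0 := by positivity
    have hj3 : 2*(k:ℚ)+3 ≠ 0 := by positivity
    have e1 : (((n+(k+1)).choose (2*(k+1)+1) : ℕ) : ℚ) = ((n:ℚ)+k+1) * ((n:ℚ)-k-1) * (((n+k).choose (2*k+1) : ℕ) : ℚ) / ((2*(k:ℚ)+3) * (2*(k:ℚ)+2)) := by
      rw [eq_div_iff (by positivity), show n+(k+1) = n+k+1 by ring, show 2*(k+1)+1 = 2*k+1+2 by ring]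
      linarith
    have e2 : (((2*(k+1)).choose (k+1) : ℕ) : ℚ) = 2*(2*(k:ℚ)+1) * (((2*k).choose k : ℕ) : ℚ) / ((k:ℚ)+1) := by
      rw [eq_div_iff hj1]; linarith
    rw [e1, e2]
    have e3 : (n:ℚ) * ((-1)^(k+1) * ((∏ i ∈ range k, (1 - (n:ℚ)^2/((i:ℚ)+1)^2)) * (1 - (n:ℚ)^2/((k:ℚ)+1)^2))) =
        (n * ((-1)^k * ∏ i ∈ range k, (1 - (n:ℚ)^2/((i:ℚ)+1)^2))) * (-(1 - (n:ℚ)^2/((k:ℚ)+1)^2)) := by ring
    rw [e3, ← ih]
    push_cast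
    field_simp
    ring

section
variable {p : ℕ} [hp : Fact p.Prime]

theorem two_pow_unit (h2 : p ≠ 2) (n : ℕ) : padicValRat p ((2:ℚ)^n) = 0 := by
  rw [padicValRat.pow]
  have : padicValRat p (2:ℚ) = 0 := by
    have := unit_nat (p := p) (n := 2) (by
      intro h
      exact h2 ((Nat.prime_dvd_prime_iff_eq hp.out Nat.prime_two).1 h))
    simpa using this
  rw [this, mul_zero]

theorem cb_cong (h2 : p ≠ 2) {h : ℕ} (hh : p = 2*h+1) {j : ℕ} (hj : j ≤ h) :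
    Dv p 2 ((((2*j).choose j : ℕ) : ℚ) / 16^j - (-1:ℚ)^j * (((h+j).choose (2*j) : ℕ) : ℚ)) := by
  have h1 := cb_prod h j
  have h3 := Pi1 (p := p) hh hj
  have hpq : (p:ℚ) = 2*h+1 := by rw [hh]; push_cast; ring
  rw [hpq] at h3
  have e : (((2*j).choose j : ℕ) : ℚ) / 16^j - (-1:ℚ)^j * (((h+j).choose (2*j) : ℕ) : ℚ) =
      -((∏ i ∈ range j, (1 - (2*(h:ℚ)+1)^2/(2*(i:ℚ)+1)^2) - 1) * (((2*j).choose j : ℕ) : ℚ)) / 2^(4*j) := by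
    have : (16:ℚ)^j = 2^(4*j) := by rw [pow_mul]; norm_num
    rw [← this]
    have h16 : (16:ℚ)^j ≠ 0 := by positivity
    generalize (∏ i ∈ range j, (1 - (2*(h:ℚ)+1)^2/(2*(i:ℚ)+1)^2)) = P at h1 ⊢
    rw [div_sub' h16, div_left_inj' h16]
    linarith
  rw [e]
  exact (((h3.mul0 (Dv.nat _))).neg).div_unit (two_pow_unit h2 _)

/-- `(2k+1)κ_k ≡ (-1)^k p (mod p³)` -/
theorem kap_cong {k : ℕ} (hk : k < p) : Dv p 3 ((2*(k:ℚ)+1) * ((((p+k).choose (2*k+1) : ℕ) : ℚ) * (((2*k).choose k : ℕ) : ℚ)) - (-1)^k * p) := by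
  rw [kap_prod]
  have h3 := Pi2 (p := p) hk
  have := (Dv.p1 (p := p)).mul (h3.mul0 (Dv.int (p := p) ((-1)^k)))
  refine Dv_eq ?_ this
  push_cast
  ring

theorem pm1 {m : ℕ} (hm : m < p) : Dv p 1 ((((p-1).choose m : ℕ) : ℚ) - (-1)^m) := by
  have h1 : ((((p-1).choose m : ℕ) : ℤ) - (-1)^m : ℤ) = ((((p-1).choose m : ℕ) : ℤ) - (-1)^m) := rfl
  have h2 : (((((p-1).choose m : ℕ) : ℤ) - (-1)^m : ℤ) : ZMod p) = 0 := by
    push_cast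
    rw [choose_pm1 p hm]
    ring
  have := Dv.of_zmod h2
  push_cast at this
  exact this

theorem pch {m : ℕ} : ((m:ℚ)+1) * ((p.choose (m+1) : ℕ) : ℚ) = p * (((p-1).choose m : ℕ) : ℚ) := by
  have h1 := ch_diag (p-1) m
  have hp1 := hp.out.one_lt
  have : p - 1 + 1 = p := by omega
  rw [this, Nat.cast_sub (by omega)] at h1
  rw [h1]
  push_cast
  ring

end

end Pool.Agent.N926.Tri
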