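import Pool.Agent.N926.Tri.B

/-! the congruence for the `κ`-sum -/

set_option autoImplicit false
set_option linter.unusedVariables false
set_option linter.unusedSectionVars false

namespace Pool.Agent.N926.Tri

open Finset Pool.Agent.N926.Sup2 Pool.Agent.N926.Sup Pool.Agent.N926.F54 Pool.Agent.N926.F37 Pool.Agent.N926.Fib

def al (e : ℤ) (n : ℕ) : ℤ := ∑ i ∈ range (n+1), ((n.choose (2*i) : ℕ) : ℤ) * (-e)^i
def be (e : ℤ) (n : ℕ) : ℤ := ∑ i ∈ range (n+1), ((n.choose (2*i+1) : ℕ) : ℤ) * (-e)^i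

theorem al_succ (e : ℤ) (n : ℕ) : al e (n+1) = al e n - e * be e n := by
  have h1 : al e n = ∑ i ∈ range (n+1), ((n.choose (2*(i+1)) : ℕ) : ℤ) * (-e)^(i+1) + 1 := by
    have : al e n = ∑ i ∈ range (n+1+1), ((n.choose (2*i) : ℕ) : ℤ) * (-e)^i := by
      rw [sum_range_succ, Nat.choose_eq_zero_of_lt (show n < 2*(n+1) by omega)]
      simp [al]
    rw [this, sum_range_succ']
    simp
  rw [h1]
  unfold al be
  rw [sum_range_succ', mul_sum]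
  simp only [mul_zero, Nat.choose_zero_right, Nat.cast_one, pow_zero, mul_one]
  rw [add_sub_right_comm, ← sum_sub_distrib]
  congr 1
  refine sum_congr rfl fun j _ => ?_
  rw [show 2*(j+1) = (2*j+1)+1 by ring, Nat.choose_succ_succ]
  push_cast
  ring

theorem be_succ (e : ℤ) (n : ℕ) : be e (n+1) = al e n + be e n := by
  have h1 : al e n = ∑ i ∈ range (n+1+1), ((n.choose (2*i) : ℕ) : ℤ) * (-e)^i := by
    rw [sum_range_succ, Nat.choose_eq_zero_of_lt (show n < 2*(n+1) by omega)]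
    simp [al]
  have h2 : be e n = ∑ i ∈ range (n+1+1), ((n.choose (2*i+1) : ℕ) : ℤ) * (-e)^i := by
    rw [sum_range_succ, Nat.choose_eq_zero_of_lt (show n < 2*(n+1)+1 by omega)]
    simp [be]
  rw [h1, h2]
  unfold be
  rw [← sum_add_distrib]
  refine sum_congr rfl fun j _ => ?_
  rw [Nat.choose_succ_succ]
  push_cast
  ring

theorem al_zero (e : ℤ) : al e 0 = 1 := by simp [al]
theorem be_zero (e : ℤ) : be e 0 = 0 := by simp [be]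

theorem al_half (e : ℤ) (h : ℕ) : al e (2*h+1) = ∑ i ∈ range h, (((2*h+1).choose (2*(i+1)) : ℕ) : ℤ) * (-e)^(i+1) + 1 := by
  unfold al
  have : ∑ i ∈ range (2*h+1+1), (((2*h+1).choose (2*i) : ℕ) : ℤ) * (-e)^i = ∑ i ∈ range (h+1), (((2*h+1).choose (2*i) : ℕ) : ℤ) * (-e)^i := by
    symm
    refine sum_subset (range_mono (by omega)) fun k _ hk => ?_
    rw [mem_range] at hk
    rw [Nat.choose_eq_zero_of_lt (by omega)]
    simp
  rw [this, sum_range_succ']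
  simp

theorem be_half (e : ℤ) (h : ℕ) : be e (2*h+1) = ∑ i ∈ range h, (((2*h+1).choose (2*i+1) : ℕ) : ℤ) * (-e)^i + (-e)^h := by
  unfold be
  have : ∑ i ∈ range (2*h+1+1), (((2*h+1).choose (2*i+1) : ℕ) : ℤ) * (-e)^i = ∑ i ∈ range (h+1), (((2*h+1).choose (2*i+1) : ℕ) : ℤ) * (-e)^i := by
    symm
    refine sum_subset (range_mono (by omega)) fun k _ hk => ?_
    rw [mem_range] at hk
    rw [Nat.choose_eq_zero_of_lt (by omega)]
    simp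
  rw [this, sum_range_succ]
  simp

theorem ab_one : ∀ h : ℕ, al 1 (2*h+1) = (-1)^h * be 1 (2*h+1)
  | 0 => by simp [al_succ, be_succ, al_zero, be_zero]
  | (h+1) => by
    have ih := ab_one h
    have a1 := al_succ 1 (2*h+1)
    have a2 := al_succ 1 (2*h+1+1)
    have b1 := be_succ 1 (2*h+1)
    have b2 := be_succ 1 (2*h+1+1)
    rw [show 2*(h+1)+1 = 2*h+1+1+1 by ring, a2, b2, a1, b1, pow_succ]
    have h5 : (-1:ℤ)^h * (-1)^h = 1 := by rw [← mul_pow]; simp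
    have : be 1 (2*h+1) = (-1)^h * al 1 (2*h+1) := by
      rw [ih, ← mul_assoc, h5, one_mul]
    linear_combination (-2)*this

theorem ab_three (n : ℕ) : al 3 (n+3) = -8 * al 3 n ∧ be 3 (n+3) = -8 * be 3 n := by
  rw [show n+3 = n+1+1+1 by ring]
  simp only [al_succ, be_succ]
  constructor <;> ring

theorem ab_six (q n : ℕ) : al 3 (6*q+n) = 64^q * al 3 n ∧ be 3 (6*q+n) = 64^q * be 3 n := by
  induction q with
  | zero => simp
  | succ q ih =>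
    have h1 := ab_three (6*q+n)
    have h2 := ab_three (6*q+n+3)
    rw [show 6*(q+1)+n = 6*q+n+3+3 by ring, h2.1, h2.2, h1.1, h1.2, ih.1, ih.2]
    constructor <;> ring

theorem ab_four (n : ℕ) : al (-4) n + 2 * be (-4) n = 3^n ∧ al (-4) n - 2 * be (-4) n = (-1)^n := by
  induction n with
  | zero => simp [al_zero, be_zero]
  | succ n ih =>
    rw [al_succ, be_succ, pow_succ, pow_succ, ← ih.1, ← ih.2]
    constructor <;> ring

section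
variable {p : ℕ} [hp : Fact p.Prime]

theorem kap_low (h2 : p ≠ 2) {h : ℕ} (hh : p = 2*h+1) {i : ℕ} (hi : i < h) :
    Dv p 2 ((((p+i).choose (2*i+1) : ℕ) : ℚ) * (((2*i).choose i : ℕ) : ℚ) - (-1)^i * ((p.choose (2*i+1) : ℕ) : ℚ)) := by
  have hu : padicValRat p (2*(i:ℚ)+1) = 0 := by
    have := unit_nat (p := p) (n := 2*i+1) (Nat.not_dvd_of_pos_of_lt (by omega) (by omega))
    push_cast at this
    exact this
  refine Dv.of_unit_mul hu (by positivity) ?_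
  have h1 := kap_cong (p := p) (k := i) (by omega)
  have h3 := pm1 (p := p) (m := 2*i) (by omega)
  have h4 := pch (p := p) (m := 2*i)
  push_cast at h4
  have e : (2*(i:ℚ)+1) * ((((p+i).choose (2*i+1) : ℕ) : ℚ) * (((2*i).choose i : ℕ) : ℚ) - (-1)^i * ((p.choose (2*i+1) : ℕ) : ℚ)) =
    ((2*(i:ℚ)+1) * ((((p+i).choose (2*i+1) : ℕ) : ℚ) * (((2*i).choose i : ℕ) : ℚ)) - (-1)^i * p) -
      p * ((((p-1).choose (2*i) : ℕ) : ℚ) - (-1)^(2*i)) * (((-1)^i : ℤ) : ℚ) := by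
    have : (-1:ℚ)^(2*i) = 1 := by rw [pow_mul]; simp
    rw [this]
    push_cast
    linear_combination (-(-1:ℚ)^i) * h4
  rw [e]
  exact (h1.mono (by norm_num)).sub (((Dv.p1 (p := p)).mul h3).mul0 (Dv.int _))

theorem kap_mid (h2 : p ≠ 2) {h : ℕ} (hh : p = 2*h+1) :
    Dv p 2 ((((p+h).choose (2*h+1) : ℕ) : ℚ) * (((2*h).choose h : ℕ) : ℚ) - (-1)^h) := by
  have h1 := kap_cong (p := p) (k := h) (by omega)
  refine Dv.of_p_mul (n := 1) ?_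
  refine Dv_eq ?_ h1
  have hpq : 2*(h:ℚ)+1 = p := by rw [hh]; push_cast; ring
  rw [hpq]
  ring

theorem kap_high (h2 : p ≠ 2) {h : ℕ} (hh : p = 2*h+1) {i : ℕ} (hi : i < h) :
    Dv p 2 ((((p+(h+1+i)).choose (2*(h+1+i)+1) : ℕ) : ℚ) * (((2*(h+1+i)).choose (h+1+i) : ℕ) : ℚ) + (-1)^(h+1+i) * ((p.choose (2*(i+1)) : ℕ) : ℚ)) := by
  have hpq : (p:ℚ) = 2*h+1 := by rw [hh]; push_cast; ring
  have hu : padicValRat p (2*((h:ℚ)+1+i)+1) = 0 := by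
    have := unit_nat (p := p) (n := 2*(h+1+i)+1) (by
      intro hd
      obtain ⟨c, hc⟩ := hd
      have c1 : c < 2 := by
        by_contra hcc
        have : p * 2 ≤ p * c := Nat.mul_le_mul_left _ (by omega)
        omega
      interval_cases c <;> omega)
    push_cast at this
    exact this
  have hu2 : padicValRat p (2*(i:ℚ)+2) = 0 := by
    have := unit_nat (p := p) (n := 2*i+2) (Nat.not_dvd_of_pos_of_lt (by omega) (by omega))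
    push_cast at this
    exact this
  refine Dv.of_unit_mul hu (by positivity) ?_
  refine Dv.of_unit_mul hu2 (by positivity) ?_
  have h1 := kap_cong (p := p) (k := h+1+i) (by omega)
  have h3 := pm1 (p := p) (m := 2*i+1) (by omega)
  have h4 := pch (p := p) (m := 2*i+1)
  push_cast at h4 h1
  have h4' : (2*(i:ℚ)+2) * ((p.choose (2*(i+1)) : ℕ) : ℚ) = p * (((p-1).choose (2*i+1) : ℕ) : ℚ) := by
    rw [show 2*(i+1) = 2*i+1+1 by ring]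
    linarith
  have e : (2*(i:ℚ)+2) * ((2*((h:ℚ)+1+i)+1) * ((((p+(h+1+i)).choose (2*(h+1+i)+1) : ℕ) : ℚ) * (((2*(h+1+i)).choose (h+1+i) : ℕ) : ℚ) + (-1)^(h+1+i) * ((p.choose (2*(i+1)) : ℕ) : ℚ))) =
    ((2*((h:ℚ)+1+i)+1) * ((((p+(h+1+i)).choose (2*(h+1+i)+1) : ℕ) : ℚ) * (((2*(h+1+i)).choose (h+1+i) : ℕ) : ℚ)) - (-1)^(h+1+i) * p) * ((2*i+2 : ℕ) : ℚ) +
      (p * ((((p-1).choose (2*i+1) : ℕ) : ℚ) - (-1)^(2*i+1)) * (((-1)^(h+1+i) * (2*i+2) : ℤ) : ℚ) +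
       p * p * (((-1)^(h+1+i) * (((p-1).choose (2*i+1) : ℕ) : ℤ) : ℤ) : ℚ)) := by
    have : (-1:ℚ)^(2*i+1) = -1 := by rw [pow_succ, pow_mul]; simp
    rw [this]
    have h5 : 2*((h:ℚ)+1+i)+1 = p + (2*i+2) := by rw [hpq]; ring
    rw [h5]
    push_cast
    linear_combination ((p:ℚ) + (2*i+2)) * ((-1:ℚ)^(h+1+i)) * h4'
  rw [e]
  refine ((h1.mono (by norm_num)).mul0 (Dv.nat _)).add ((((Dv.p1 (p := p)).mul h3).mul0 (Dv.int _)).add (((Dv.p1 (p := p)).mul Dv.p1).mul0 (Dv.int _)))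

/-- **Lemma B** -/
theorem Ks_cong (h2 : p ≠ 2) {h : ℕ} (hh : p = 2*h+1) (e : ℤ) :
    Dv p 2 ((-1:ℚ)^h * (Ks h e : ℚ) - ((e:ℚ)^h * (1 - (al e p : ℚ)) + (-1)^h * (be e p : ℚ))) := by
  have hal : (al e p : ℚ) = ∑ i ∈ range h, ((p.choose (2*(i+1)) : ℕ) : ℚ) * (-(e:ℚ))^(i+1) + 1 := by
    rw [hh, al_half]; push_cast; rfl
  have hbe : (be e p : ℚ) = ∑ i ∈ range h, ((p.choose (2*i+1) : ℕ) : ℚ) * (-(e:ℚ))^i + (-(e:ℚ))^h := by
    rw [hh, be_half]; push_cast; rfl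
  have hK : (Ks h e : ℚ) = ∑ i ∈ range h, ((((p+i).choose (2*i+1) : ℕ) : ℚ) * (((2*i).choose i : ℕ) : ℚ)) * (e:ℚ)^i +
      (((p+h).choose (2*h+1) : ℕ) : ℚ) * (((2*h).choose h : ℕ) : ℚ) * (e:ℚ)^h +
      ∑ i ∈ range h, ((((p+(h+1+i)).choose (2*(h+1+i)+1) : ℕ) : ℚ) * (((2*(h+1+i)).choose (h+1+i) : ℕ) : ℚ)) * (e:ℚ)^(h+1+i) := by
    unfold Ks
    have hr : range (2*h+1) = range ((h+1)+h) := by congr 1; ring
    have ek : ∀ k, 2*h+1+k = p+k := fun k => by rw [hh]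
    rw [hr, sum_range_add, sum_range_succ]
    simp only [ek]
    push_cast
    rfl
  rw [hal, hbe, hK]
  have e1 : (-1:ℚ)^h * (∑ i ∈ range h, ((((p+i).choose (2*i+1) : ℕ) : ℚ) * (((2*i).choose i : ℕ) : ℚ)) * (e:ℚ)^i +
      (((p+h).choose (2*h+1) : ℕ) : ℚ) * (((2*h).choose h : ℕ) : ℚ) * (e:ℚ)^h +
      ∑ i ∈ range h, ((((p+(h+1+i)).choose (2*(h+1+i)+1) : ℕ) : ℚ) * (((2*(h+1+i)).choose (h+1+i) : ℕ) : ℚ)) * (e:ℚ)^(h+1+i)) -
      ((e:ℚ)^h * (1 - (∑ i ∈ range h, ((p.choose (2*(i+1)) : ℕ) : ℚ) * (-(e:ℚ))^(i+1) + 1)) + (-1)^h * (∑ i ∈ range h, ((p.choose (2*i+1) : ℕ) : ℚ) * (-(e:ℚ))^i + (-(e:ℚ))^h)) =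
      ∑ i ∈ range h, ((((p+i).choose (2*i+1) : ℕ) : ℚ) * (((2*i).choose i : ℕ) : ℚ) - (-1)^i * ((p.choose (2*i+1) : ℕ) : ℚ)) * (((-1)^h * e^i : ℤ) : ℚ) +
      ((((p+h).choose (2*h+1) : ℕ) : ℚ) * (((2*h).choose h : ℕ) : ℚ) - (-1)^h) * (((-1)^h * e^h : ℤ) : ℚ) +
      ∑ i ∈ range h, ((((p+(h+1+i)).choose (2*(h+1+i)+1) : ℕ) : ℚ) * (((2*(h+1+i)).choose (h+1+i) : ℕ) : ℚ) + (-1)^(h+1+i) * ((p.choose (2*(i+1)) : ℕ) : ℚ)) * (((-1)^h * e^(h+1+i) : ℤ) : ℚ) := by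
    have s1 : ∑ i ∈ range h, ((((p+i).choose (2*i+1) : ℕ) : ℚ) * (((2*i).choose i : ℕ) : ℚ) - (-1)^i * ((p.choose (2*i+1) : ℕ) : ℚ)) * (((-1)^h * e^i : ℤ) : ℚ) =
        (-1)^h * ∑ i ∈ range h, ((((p+i).choose (2*i+1) : ℕ) : ℚ) * (((2*i).choose i : ℕ) : ℚ)) * (e:ℚ)^i - (-1)^h * ∑ i ∈ range h, ((p.choose (2*i+1) : ℕ) : ℚ) * (-(e:ℚ))^i := by
      rw [mul_sum, mul_sum, ← sum_sub_distrib]
      refine sum_congr rfl fun i _ => ?_
      rw [neg_pow]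
      push_cast
      ring
    have s2 : ∑ i ∈ range h, ((((p+(h+1+i)).choose (2*(h+1+i)+1) : ℕ) : ℚ) * (((2*(h+1+i)).choose (h+1+i) : ℕ) : ℚ) + (-1)^(h+1+i) * ((p.choose (2*(i+1)) : ℕ) : ℚ)) * (((-1)^h * e^(h+1+i) : ℤ) : ℚ) =
        (-1)^h * ∑ i ∈ range h, ((((p+(h+1+i)).choose (2*(h+1+i)+1) : ℕ) : ℚ) * (((2*(h+1+i)).choose (h+1+i) : ℕ) : ℚ)) * (e:ℚ)^(h+1+i) +
        (e:ℚ)^h * ∑ i ∈ range h, ((p.choose (2*(i+1)) : ℕ) : ℚ) * (-(e:ℚ))^(i+1) := by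
      rw [mul_sum, mul_sum, ← sum_add_distrib]
      refine sum_congr rfl fun i _ => ?_
      have h5 : (-1:ℚ)^h * (-1)^h = 1 := by rw [← mul_pow]; simp
      have h6 : (-1:ℚ)^(h+1+i) * (-1)^h = (-1)^(i+1) := by
        rw [show h+1+i = h+(i+1) by ring, pow_add, mul_assoc, mul_comm ((-1:ℚ)^(i+1)), ← mul_assoc, h5, one_mul]
      rw [neg_pow (e:ℚ) (i+1)]
      push_cast
      rw [show h+1+i = h+(i+1) by ring] at h6 ⊢
      linear_combination ((p.choose (2*(i+1)) : ℕ) : ℚ) * (e:ℚ)^(h+(i+1)) * h6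
    rw [s1, s2]
    have h5 : (-1:ℚ)^h * (-1)^h = 1 := by rw [← mul_pow]; simp
    rw [neg_pow (e:ℚ) h]
    push_cast
    ring
  rw [e1]
  refine ((Dv.sum _ _ fun i hi => ?_).add ((kap_mid h2 hh).mul0 (Dv.int _))).add (Dv.sum _ _ fun i hi => ?_)
  · exact (kap_low h2 hh (mem_range.1 hi)).mul0 (Dv.int _)
  · exact (kap_high h2 hh (mem_range.1 hi)).mul0 (Dv.int _)

end

end Pool.Agent.N926.Tri
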