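import Pool.Agent.N926.Tri.C

/-! the second, fourth and fifth congruences -/

set_option autoImplicit false
set_option linter.unusedVariables false
set_option linter.unusedSectionVars false

namespace Pool.Agent.N926.Tri

open Finset Pool.Agent.N926.Sup2 Pool.Agent.N926.Sup Pool.Agent.N926.F54 Pool.Agent.N926.F37 Pool.Agent.N926.Fib

/-- `(p/3)` -/
def e3 (p : ℕ) : ℤ := if p % 3 = 1 then 1 else -1

theorem e3_sq (p : ℕ) : e3 p * e3 p = 1 := by unfold e3; split_ifs <;> norm_num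

section
variable {p : ℕ} [hp : Fact p.Prime]

theorem fermat {a : ℕ} (ha : ¬ p ∣ a) : Dv p 1 ((a:ℚ)^(p-1) - 1) := by
  have h1 : (((a:ℤ)^(p-1) - 1 : ℤ) : ZMod p) = 0 := by
    push_cast
    rw [ZMod.pow_card_sub_one_eq_one, sub_self]
    intro h
    exact ha ((ZMod.natCast_eq_zero_iff a p).1 h)
  have := Dv.of_zmod h1
  push_cast at this
  exact this

theorem euler (h2 : p ≠ 2) {h : ℕ} (hh : p = 2*h+1) (a : ℤ) : Dv p 1 ((a:ℚ)^h - (legendreSym p a : ℚ)) := by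
  have h1 : ((a^h - legendreSym p a : ℤ) : ZMod p) = 0 := by
    push_cast
    rw [legendreSym.eq_pow, show p/2 = h by omega, sub_self]
  have := Dv.of_zmod h1
  push_cast at this
  exact this

theorem nd3 (p3 : 3 < p) : ¬ p ∣ 3 := Nat.not_dvd_of_pos_of_lt (by omega) p3
theorem nd2 (p3 : 3 < p) : ¬ p ∣ 2 := Nat.not_dvd_of_pos_of_lt (by omega) (by omega)

theorem leg_m1 (h2 : p ≠ 2) {h : ℕ} (hh : p = 2*h+1) : legendreSym p (-1) = (-1)^h := by
  rw [legendreSym.at_neg_one h2, ZMod.χ₄_eq_neg_one_pow (by omega)]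
  congr 1
  omega

theorem leg_3 (p3 : 3 < p) {h : ℕ} (hh : p = 2*h+1) : legendreSym p 3 = (-1)^h * e3 p := by
  have h1 := legendreSym.quadratic_reciprocity' (p := 3) (q := p) (by norm_num) (by omega)
  rw [show p/2 = h by omega, show 3/2 = 1 by norm_num, one_mul] at h1
  rw [show (3:ℤ) = ((3:ℕ):ℤ) by norm_num, h1]
  congr 1
  rw [legendreSym.mod]
  have h3 : p % 3 ≠ 0 := by
    intro h
    exact absurd ((Nat.prime_dvd_prime_iff_eq Nat.prime_three hp.out).1 (Nat.dvd_of_mod_eq_zero h)) (by omega)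
  have h4 : ((p:ℤ) % ((3:ℕ):ℤ)) = ((p % 3 : ℕ) : ℤ) := by norm_num
  rw [h4]
  unfold e3
  have : p % 3 = 1 ∨ p % 3 = 2 := by omega
  rcases this with h5 | h5
  · rw [h5]; decide
  · rw [h5]; decide

theorem lower (h2 : p ≠ 2) {h : ℕ} (hh : p = 2*h+1) (e : ℤ) :
    Dv p 2 (∑ j ∈ range (h+1), (U e (2*j) : ℚ) * (((2*j).choose j : ℕ) : ℚ) / 16^j - (-1)^h * (Ks h e : ℚ)) := by
  have h1 := congrArg (fun z : ℤ => (z:ℚ)) (lemA h e)
  push_cast at h1
  rw [← h1, ← sum_sub_distrib]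
  refine Dv.sum _ _ fun j hj => ?_
  rw [mem_range] at hj
  refine Dv_eq ?_ ((cb_cong h2 hh (show j ≤ h by omega)).mul0 (Dv.int (p := p) (U e (2*j))))
  ring

theorem sg (h : ℕ) : (-1:ℚ)^h * (-1)^h = 1 := by rw [← mul_pow]; simp

theorem Ks1 (h2 : p ≠ 2) {h : ℕ} (hh : p = 2*h+1) : Dv p 2 ((-1:ℚ)^h * (Ks h 1 : ℚ) - 1) := by
  have h1 := Ks_cong h2 hh 1
  have h3 := congrArg (fun z : ℤ => (z:ℚ)) (ab_one h)
  rw [← hh] at h3
  push_cast at h3 h1
  refine Dv_eq ?_ h1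
  rw [h3]
  ring

theorem Ks3 (p3 : 3 < p) {h : ℕ} (hh : p = 2*h+1) : Dv p 2 ((-1:ℚ)^h * (Ks h 3 : ℚ) - (legendreSym p 3 : ℚ)) := by
  have h2 : p ≠ 2 := by omega
  have h1 := Ks_cong h2 hh 3
  have hab : al 3 p = 2^(p-1) ∧ be 3 p = e3 p * 2^(p-1) := by
    have h3 : p % 3 ≠ 0 := by
      intro h
      exact absurd ((Nat.prime_dvd_prime_iff_eq Nat.prime_three hp.out).1 (Nat.dvd_of_mod_eq_zero h)) (by omega)
    have : p % 6 = 1 ∨ p % 6 = 5 := by omega
    rcases this with h5 | h5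
    · obtain ⟨q, hq⟩ : ∃ q, p = 6*q+1 := ⟨p/6, by omega⟩
      have h6 := ab_six q 1
      have a1 : al 3 1 = 1 := by decide
      have b1 : be 3 1 = 1 := by decide
      rw [← hq, a1, b1] at h6
      have e : (64:ℤ)^q = 2^(p-1) := by rw [show p-1 = 6*q by omega, pow_mul]; norm_num
      rw [h6.1, h6.2, e]
      unfold e3
      rw [if_pos (by omega)]
      constructor <;> ring
    · obtain ⟨q, hq⟩ : ∃ q, p = 6*q+5 := ⟨p/6, by omega⟩
      have h6 := ab_six q 5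
      have a1 : al 3 5 = 16 := by decide
      have b1 : be 3 5 = -16 := by decide
      rw [← hq, a1, b1] at h6
      have e : (64:ℤ)^q * 16 = 2^(p-1) := by rw [show p-1 = 6*q+4 by omega, pow_add, pow_mul]; norm_num
      rw [h6.1, h6.2, ← e]
      unfold e3
      rw [if_neg (by omega)]
      constructor <;> ring
  have hA : (al 3 p : ℚ) = 2^(p-1) := by rw [hab.1]; push_cast; ring
  have hB : (be 3 p : ℚ) = e3 p * 2^(p-1) := by rw [hab.2]; push_cast; ring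
  rw [hA, hB] at h1
  have hL : (legendreSym p 3 : ℚ) = (-1)^h * e3 p := by rw [leg_3 p3 hh]; push_cast; ring
  have h4 := euler h2 hh 3
  have h5 := fermat (nd2 p3)
  have h6 := h4.mul h5
  push_cast at h1 h6
  refine Dv_eq ?_ (h1.sub h6)
  rw [hL]
  ring

theorem Ks4 (p3 : 3 < p) {h : ℕ} (hh : p = 2*h+1) : Dv p 2 ((-1:ℚ)^h * (Ks h (-4) : ℚ) - (7 - 3^p)/4 * (legendreSym p (-1) : ℚ)) := by
  have h2 : p ≠ 2 := by omega
  have h1 := Ks_cong h2 hh (-4)
  have hab := ab_four p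
  have hodd : (-1:ℤ)^p = -1 := by rw [hh, pow_succ, pow_mul]; simp
  rw [hodd] at hab
  have h7 := congrArg (fun z : ℤ => (z:ℚ)) hab.1
  have h8 := congrArg (fun z : ℤ => (z:ℚ)) hab.2
  push_cast at h7 h8
  have hA : (al (-4) p : ℚ) = (3^p - 1)/2 := by linarith
  have hB : (be (-4) p : ℚ) = (3^p + 1)/4 := by linarith
  rw [hA, hB] at h1
  have hL : (legendreSym p (-1) : ℚ) = (-1)^h := by rw [leg_m1 h2 hh]; push_cast; ring
  have h5 := fermat (nd2 p3)
  have h6 := fermat (nd3 p3)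
  have h9 := (h5.mul h6)
  have h10 := (h9.mul0 (Dv.int (p := p) ((-1)^h * 3))).div_unit (two_pow_unit h2 1)
  push_cast at h1 h10
  refine Dv_eq ?_ (h1.sub h10)
  rw [hL]
  have e4 : (-4:ℚ)^h = (-1)^h * 2^(p-1) := by
    rw [show p-1 = 2*h by omega, pow_mul, ← mul_pow]; norm_num
  have e3' : (3:ℚ)^p = 3 * 3^(p-1) := by
    rw [← pow_succ']; congr 1; omega
  rw [e4, e3']
  ring

end

end Pool.Agent.N926.Tri
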