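import Pool.Agent.N926.Tri.E

/-! exact identities for the third congruence -/

set_option autoImplicit false
set_option linter.unusedVariables false
set_option linter.unusedSectionVars false

namespace Pool.Agent.N926.Tri

open Finset Pool.Agent.N926.Sup2 Pool.Agent.N926.Sup Pool.Agent.N926.F54 Pool.Agent.N926.F37 Pool.Agent.N926.Fib

def dn (n k : ℕ) : ℚ := (((n+k).choose (2*k) : ℕ) : ℚ) * (((2*k).choose k : ℕ) : ℚ)

theorem dn_zero (n : ℕ) : dn n 0 = 1 := by simp [dn]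
theorem dn_van {n k : ℕ} (h : n < k) : dn n k = 0 := by
  unfold dn
  rw [Nat.choose_eq_zero_of_lt (by omega)]
  simp

theorem dn_rec (n k : ℕ) : ((n:ℚ)+2) * dn (n+2) (k+1) = (2*n+3) * (dn (n+1) (k+1) + 2 * dn (n+1) k) - (n+1) * dn n (k+1) := by
  unfold dn
  have hk1 : (k:ℚ)+1 ≠ 0 := by positivity
  have e2 : (((2*(k+1)).choose (k+1) : ℕ) : ℚ) = 2*(2*(k:ℚ)+1) * (((2*k).choose k : ℕ) : ℚ) / ((k:ℚ)+1) := by
    rw [eq_div_iff hk1]; linarith [cb_up k]
  have a1 := ch_two (n+k+1) (2*k)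
  have a2 := ch_up (n+k+1) (2*k)
  have a3 := ch_up (n+k+1) (2*k+1)
  have a4 := ch_diag (n+k+1) (2*k)
  have a5 := ch_diag (n+k+1+1) (2*k+1)
  push_cast at a1 a2 a3 a4 a5
  have b1 : (((n+1+(k+1)).choose (2*(k+1)) : ℕ) : ℚ) = ((n:ℚ)+k+2)*((n:ℚ)+k+1-2*k) * (((n+1+k).choose (2*k) : ℕ) : ℚ) / ((2*k+2)*(2*k+1)) := by
    rw [eq_div_iff (by positivity), show n+1+(k+1) = n+k+1+1 by ring, show 2*(k+1) = 2*k+2 by ring, show n+1+k = n+k+1 by ring]
    linarith
  have b2 : (((n+(k+1)).choose (2*(k+1)) : ℕ) : ℚ) = ((n:ℚ)+k-2*k)*((n:ℚ)+k+1-2*k) * (((n+1+k).choose (2*k) : ℕ) : ℚ) / ((2*k+2)*(2*k+1)) := by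
    rw [eq_div_iff (by positivity), show n+(k+1) = n+k+1 by ring, show 2*(k+1) = 2*k+1+1 by ring, show n+1+k = n+k+1 by ring]
    linear_combination (2*(k:ℚ)+1) * a3 + ((n:ℚ)+k-2*k) * a2
  have b3 : (((n+2+(k+1)).choose (2*(k+1)) : ℕ) : ℚ) = ((n:ℚ)+k+3)*((n:ℚ)+k+2) * (((n+1+k).choose (2*k) : ℕ) : ℚ) / ((2*k+2)*(2*k+1)) := by
    rw [eq_div_iff (by positivity), show n+2+(k+1) = n+k+1+1+1 by ring, show 2*(k+1) = 2*k+1+1 by ring, show n+1+k = n+k+1 by ring]
    linear_combination (2*(k:ℚ)+1) * a5 + ((n:ℚ)+k+3) * a4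
  rw [b1, b2, b3, e2]
  field_simp
  ring

def DD (n : ℕ) : ℚ := ∑ k ∈ range (n+1), dn n k

theorem DD_ext {n K : ℕ} (h : n < K) : DD n = ∑ k ∈ range K, dn n k := by
  unfold DD
  refine sum_subset (range_mono (by omega)) fun k _ hk => ?_
  rw [mem_range] at hk
  exact dn_van (by omega)

theorem DD_rec (n : ℕ) : ((n:ℚ)+2) * DD (n+2) = 3*(2*n+3) * DD (n+1) - (n+1) * DD n := by
  have h1 : DD (n+2) = ∑ k ∈ range (n+2), dn (n+2) (k+1) + 1 := by
    rw [DD_ext (show n+2 < n+2+1 by omega), sum_range_succ', dn_zero]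
  have h2 : DD (n+1) = ∑ k ∈ range (n+2), dn (n+1) (k+1) + 1 := by
    rw [DD_ext (show n+1 < n+2+1 by omega), sum_range_succ', dn_zero]
  have h3 : DD n = ∑ k ∈ range (n+2), dn n (k+1) + 1 := by
    rw [DD_ext (show n < n+2+1 by omega), sum_range_succ', dn_zero]
  have h4 : DD (n+1) = ∑ k ∈ range (n+2), dn (n+1) k := DD_ext (by omega)
  have h5 : ((n:ℚ)+2) * ∑ k ∈ range (n+2), dn (n+2) (k+1) =
      (2*n+3) * (∑ k ∈ range (n+2), dn (n+1) (k+1) + 2 * ∑ k ∈ range (n+2), dn (n+1) k) - (n+1) * ∑ k ∈ range (n+2), dn n (k+1) := by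
    rw [mul_add, mul_sum, mul_sum, mul_sum, mul_sum, mul_sum, ← sum_add_distrib, ← sum_sub_distrib]
    refine sum_congr rfl fun k _ => ?_
    rw [dn_rec]
    ring
  rw [← h4] at h5
  have h6 : ∑ k ∈ range (n+2), dn (n+1) (k+1) = DD (n+1) - 1 := by rw [h2]; ring
  have h7 : ∑ k ∈ range (n+2), dn n (k+1) = DD n - 1 := by rw [h3]; ring
  rw [h6, h7] at h5
  rw [h1, mul_add, h5]
  ring

theorem DD0 : DD 0 = 1 := by simp [DD, dn]
theorem DD1 : DD 1 = 3 := by simp [DD, dn, sum_range_succ]; norm_num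

/-! coefficients of the Legendre polynomials -/

def ll (k j : ℕ) : ℚ := ((2*k+2*j).factorial : ℚ) / (2^(k+2*j) * (j.factorial : ℚ) * ((k+j).factorial : ℚ) * (k.factorial : ℚ))

theorem ll_j (k j : ℕ) : 2*((j:ℚ)+1) * ll k (j+1) = (2*k+2*j+1) * ll k j := by
  unfold ll
  rw [show 2*k+2*(j+1) = 2*k+2*j+1+1 by ring, show k+(j+1) = k+j+1 by ring, show k+2*(j+1) = k+2*j+2 by ring,
    Nat.factorial_succ, Nat.factorial_succ, Nat.factorial_succ j, Nat.factorial_succ (k+j)]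
  have h1 : ((k+j).factorial : ℚ) ≠ 0 := by exact_mod_cast (k+j).factorial_ne_zero
  have h2 : (k.factorial : ℚ) ≠ 0 := by exact_mod_cast k.factorial_ne_zero
  have h3 : (j.factorial : ℚ) ≠ 0 := by exact_mod_cast j.factorial_ne_zero
  have h4 : (k:ℚ)+j+1 ≠ 0 := by positivity
  have h5 : (j:ℚ)+1 ≠ 0 := by positivity
  rw [pow_add 2 (k+2*j) 2]
  push_cast
  field_simp
  ring

theorem ll_k (k j : ℕ) : ((k:ℚ)+1) * ll (k+1) j = (2*k+2*j+1) * ll k j := by
  unfold ll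
  rw [show 2*(k+1)+2*j = 2*k+2*j+1+1 by ring, show k+1+j = k+j+1 by ring, show k+1+2*j = k+2*j+1 by ring,
    Nat.factorial_succ, Nat.factorial_succ, Nat.factorial_succ k, Nat.factorial_succ (k+j)]
  have h1 : ((k+j).factorial : ℚ) ≠ 0 := by exact_mod_cast (k+j).factorial_ne_zero
  have h2 : (k.factorial : ℚ) ≠ 0 := by exact_mod_cast k.factorial_ne_zero
  have h3 : (j.factorial : ℚ) ≠ 0 := by exact_mod_cast j.factorial_ne_zero
  have h4 : (k:ℚ)+j+1 ≠ 0 := by positivity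
  have h5 : (k:ℚ)+1 ≠ 0 := by positivity
  rw [pow_succ 2 (k+2*j)]
  push_cast
  field_simp
  ring

def pc (n k : ℕ) : ℚ := if k ≤ n ∧ (n-k) % 2 = 0 then (-1)^((n-k)/2) * ll k ((n-k)/2) else 0

theorem pc_even (k j : ℕ) : pc (k+2*j) k = (-1)^j * ll k j := by
  unfold pc
  rw [if_pos ⟨by omega, by omega⟩, show (k+2*j-k)/2 = j by omega]

theorem pc_odd (k j : ℕ) : pc (k+2*j+1) k = 0 := by
  unfold pc
  rw [if_neg (by omega)]

theorem pc_van {n k : ℕ} (h : n < k) : pc n k = 0 := by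
  unfold pc
  rw [if_neg (by omega)]

theorem pc_rec (n k : ℕ) : ((n:ℚ)+2) * pc (n+2) (k+1) = (2*n+3) * pc (n+1) k - (n+1) * pc n (k+1) := by
  by_cases h : n + 1 < k
  · rw [pc_van (show n+2 < k+1 by omega), pc_van h, pc_van (show n < k+1 by omega)]
    ring
  obtain ⟨m, hm⟩ : ∃ m, n + 1 = k + m := ⟨n+1-k, by omega⟩
  rcases Nat.even_or_odd m with ⟨j, hj⟩ | ⟨j, hj⟩
  · have e1 : pc (n+2) (k+1) = (-1)^j * ll (k+1) j := by
      rw [show n+2 = k+1+2*j by omega, pc_even]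
    have e2 : pc (n+1) k = (-1)^j * ll k j := by rw [show n+1 = k+2*j by omega, pc_even]
    rcases Nat.eq_zero_or_pos j with h0 | h0
    · subst h0
      rw [e1, e2, pc_van (show n < k+1 by omega)]
      have h1 := ll_k k 0
      have hn : (n:ℚ) = k - 1 := by
        have : n + 1 = k := by omega
        have : (n:ℚ) + 1 = k := by exact_mod_cast this
        linarith
      rw [hn]
      push_cast at h1
      linear_combination h1
    · obtain ⟨i, rfl⟩ : ∃ i, j = i + 1 := ⟨j-1, by omega⟩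
      have e3 : pc n (k+1) = (-1)^i * ll (k+1) i := by rw [show n = k+1+2*i by omega, pc_even]
      rw [e1, e2, e3]
      have h1 := ll_k k (i+1)
      have h2 := ll_j (k+1) i
      have hn : (n:ℚ) = k + 1 + 2*i := by
        have : n = k+1+2*i := by omega
        rw [this]; push_cast; ring
      rw [hn, pow_succ]
      push_cast at h1 h2
      have hk3 : 2*(k:ℚ)+2*i+3 ≠ 0 := by positivity
      have g1 : ll k (i+1) = ((k:ℚ)+1) * ll (k+1) (i+1) / (2*(k:ℚ)+2*i+3) := by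
        rw [eq_div_iff hk3]; linarith
      have g2 : ll (k+1) i = 2*((i:ℚ)+1) * ll (k+1) (i+1) / (2*(k:ℚ)+2*i+3) := by
        rw [eq_div_iff hk3]; linarith
      rw [g1, g2]
      field_simp
      ring
  · have e1 : pc (n+2) (k+1) = 0 := by
      rw [show n+2 = k+1+2*j+1 by omega, pc_odd]
    have e2 : pc (n+1) k = 0 := by rw [show n+1 = k+2*j+1 by omega, pc_odd]
    rcases Nat.eq_zero_or_pos j with h0 | h0
    · subst h0
      rw [e1, e2, pc_van (show n < k+1 by omega)]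
      ring
    · obtain ⟨i, rfl⟩ : ∃ i, j = i + 1 := ⟨j-1, by omega⟩
      rw [e1, e2, show n = k+1+2*i+1 by omega, pc_odd]
      ring

theorem pc_rec0 (n : ℕ) : ((n:ℚ)+2) * pc (n+2) 0 = - (n+1) * pc n 0 := by
  rcases Nat.even_or_odd n with ⟨j, hj⟩ | ⟨j, hj⟩
  · have e1 : pc (n+2) 0 = (-1)^(j+1) * ll 0 (j+1) := by rw [show n+2 = 0+2*(j+1) by omega, pc_even]
    have e2 : pc n 0 = (-1)^j * ll 0 j := by
      have := pc_even 0 j
      rwa [show 0+2*j = n by omega] at this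
    rw [e1, e2]
    have h2 := ll_j 0 j
    have hn : (n:ℚ) = 2*j := by rw [hj]; push_cast; ring
    rw [hn, pow_succ]
    push_cast at h2
    linear_combination (-(-1:ℚ)^j) * h2
  · rw [show n+2 = 0+2*(j+1)+1 by omega, pc_odd]
    have := pc_odd 0 j
    rw [show 0+2*j+1 = n by omega] at this
    rw [this]
    ring

def PP (K n : ℕ) (x : ℚ) : ℚ := ∑ k ∈ range K, pc n k * x^k

theorem PP_rec {K n : ℕ} (h : n + 2 < K) (x : ℚ) : ((n:ℚ)+2) * PP K (n+2) x = (2*n+3) * x * PP K (n+1) x - (n+1) * PP K n x := by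
  obtain ⟨K', rfl⟩ : ∃ K', K = K'+1 := ⟨K-1, by omega⟩
  unfold PP
  have h1 : ∑ k ∈ range (K'+1), pc (n+1) k * x^k = ∑ k ∈ range K', pc (n+1) k * x^k := by
    rw [sum_range_succ, pc_van (show n+1 < K' by omega)]; ring
  rw [h1, sum_range_succ', sum_range_succ' (fun k => pc n k * x^k)]
  have h2 : ((n:ℚ)+2) * ∑ k ∈ range K', pc (n+2) (k+1) * x^(k+1) = (2*n+3) * x * ∑ k ∈ range K', pc (n+1) k * x^k - (n+1) * ∑ k ∈ range K', pc n (k+1) * x^(k+1) := by
    rw [mul_sum, mul_sum, mul_sum, ← sum_sub_distrib]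
    refine sum_congr rfl fun k _ => ?_
    rw [← mul_assoc, pc_rec, pow_succ]
    ring
  have h3 := pc_rec0 n
  rw [mul_add, h2]
  simp only [pow_zero, mul_one]
  rw [h3]
  ring

theorem PP0 {K : ℕ} (h : 0 < K) (x : ℚ) : PP K 0 x = 1 := by
  unfold PP
  rw [sum_eq_single_of_mem 0 (by simpa using h)]
  · have := pc_even 0 0
    simp at this
    rw [this]
    simp [ll]
  · intro b _ hb
    rw [pc_van (by omega), zero_mul]

theorem PP1 {K : ℕ} (h : 1 < K) (x : ℚ) : PP K 1 x = x := by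
  obtain ⟨K', rfl⟩ : ∃ K', K = K'+2 := ⟨K-2, by omega⟩
  unfold PP
  rw [sum_range_succ', sum_range_succ', sum_eq_zero (fun k _ => by rw [pc_van (by omega), zero_mul])]
  have h1 : pc 1 1 = 1 := by
    have := pc_even 1 0
    simp at this
    rw [this]
    simp [ll]
  have h2 : pc 1 0 = 0 := by
    have := pc_odd 0 0
    simpa using this
  simp [h1, h2]

theorem PP_three : ∀ n K : ℕ, n < K → PP K n 3 = DD n
  | 0, K, h => by rw [PP0 h, DD0]
  | 1, K, h => by rw [PP1 h, DD1]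
  | (n+2), K, h => by
    have i1 := PP_three (n+1) K (by omega)
    have i2 := PP_three n K (by omega)
    have h1 := PP_rec h 3
    rw [i1, i2] at h1
    have h2 := DD_rec n
    have hn : (n:ℚ)+2 ≠ 0 := by positivity
    apply mul_left_cancel₀ hn
    linarith

theorem PP_one : ∀ n K : ℕ, n < K → PP K n 1 = 1
  | 0, K, h => by rw [PP0 h]
  | 1, K, h => by rw [PP1 h]
  | (n+2), K, h => by
    have i1 := PP_one (n+1) K (by omega)
    have i2 := PP_one n K (by omega)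
    have h1 := PP_rec h 1
    rw [i1, i2] at h1
    have hn : (n:ℚ)+2 ≠ 0 := by positivity
    apply mul_left_cancel₀ hn
    linarith

def sn (n : ℕ) : ℚ := (-1)^(n/2)

theorem sn_two (n : ℕ) : sn (n+2) = - sn n := by
  unfold sn
  rw [show (n+2)/2 = n/2+1 by omega, pow_succ]
  ring

theorem sn_add (k j : ℕ) : sn (k+2*j) * (-1)^j = sn k := by
  unfold sn
  rw [show (k+2*j)/2 = k/2+j by omega, pow_add, mul_assoc, sg, mul_one]

theorem sn_sum (h : ℕ) : ∑ n ∈ range (2*h+1), sn n = 1 := by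
  induction h with
  | zero => simp [sn]
  | succ h ih =>
    rw [show 2*(h+1)+1 = 2*h+1+1+1 by ring, sum_range_succ, sum_range_succ, ih]
    unfold sn
    rw [show (2*h+1)/2 = h by omega, show (2*h+1+1)/2 = h+1 by omega, pow_succ]
    ring

theorem colsum (k : ℕ) : ∀ J : ℕ, (2*(k:ℚ)+1) * ∑ n ∈ range (k+2*J+1), sn n * pc n k = sn k * ((2*k+2*J+1) * ll k J)
  | 0 => by
    rw [show k+2*0+1 = k+1 by ring, sum_range_succ, sum_eq_zero (fun n hn => by rw [pc_van (mem_range.1 hn), mul_zero])]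
    have := pc_even k 0
    simp at this
    rw [this]
    push_cast
    ring
  | (J+1) => by
    have ih := colsum k J
    rw [show k+2*(J+1)+1 = k+2*J+1+1+1 by ring, sum_range_succ, sum_range_succ, pc_odd, show k+2*J+1+1 = k+2*(J+1) by ring,
      pc_even, mul_zero, add_zero, mul_add, ih, ← mul_assoc (sn (k+2*(J+1))), sn_add]
    have := ll_j k J
    push_cast
    linear_combination (-sn k) * this

theorem colsum' (k J : ℕ) : (2*(k:ℚ)+1) * ∑ n ∈ range (k+2*J+2), sn n * pc n k = sn k * ((2*k+2*J+1) * ll k J) := by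
  rw [show k+2*J+2 = k+2*J+1+1 by ring, sum_range_succ, pc_odd, mul_zero, add_zero, colsum]

theorem ll_e {p k J : ℕ} (h : p = k+2*J+1) : (2*(k:ℚ)+2*J+1) * ll k J = p * (((p+k).choose k : ℕ) : ℚ) * (((p-1).choose J : ℕ) : ℚ) / 2^(p-1) := by
  have e1 : (((p+k).choose k : ℕ) : ℚ) = ((k+p).factorial : ℚ) / ((k.factorial : ℚ) * (p.factorial : ℚ)) := by
    rw [add_comm p k, Nat.cast_add_choose]
  have e2 : (((p-1).choose J : ℕ) : ℚ) = ((p-1).factorial : ℚ) / ((J.factorial : ℚ) * ((k+J).factorial : ℚ)) := by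
    have := Nat.cast_add_choose ℚ (a := J) (b := k+J)
    rw [show J+(k+J) = p-1 by omega] at this
    exact this
  have e3 : (p.factorial : ℚ) = p * ((p-1).factorial : ℚ) := by
    have := Nat.mul_factorial_pred (n := p) (by omega)
    rw [← this]; push_cast; ring
  have e4 : ((k+p).factorial : ℚ) = (2*(k:ℚ)+2*J+1) * ((2*k+2*J).factorial : ℚ) := by
    rw [show k+p = 2*k+2*J+1 by omega, Nat.factorial_succ]; push_cast; ring
  rw [e1, e2, e3, e4]
  unfold ll
  rw [show k+2*J = p-1 by omega]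
  have h1 : ((k+J).factorial : ℚ) ≠ 0 := by exact_mod_cast (k+J).factorial_ne_zero
  have h2 : (k.factorial : ℚ) ≠ 0 := by exact_mod_cast k.factorial_ne_zero
  have h3 : (J.factorial : ℚ) ≠ 0 := by exact_mod_cast J.factorial_ne_zero
  have h4 : ((p-1).factorial : ℚ) ≠ 0 := by exact_mod_cast (p-1).factorial_ne_zero
  have h5 : (p:ℚ) ≠ 0 := by rw [h]; positivity
  field_simp

theorem ll_o {p k J : ℕ} (h : p = k+2*J+2) : (2*(k:ℚ)+2*J+1) * ll k J = p * (((p+k).choose k : ℕ) : ℚ) * (((p-1).choose J : ℕ) : ℚ) / 2^(p-1) := by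
  have e1 : (((p+k).choose k : ℕ) : ℚ) = ((k+p).factorial : ℚ) / ((k.factorial : ℚ) * (p.factorial : ℚ)) := by
    rw [add_comm p k, Nat.cast_add_choose]
  have e2 : (((p-1).choose J : ℕ) : ℚ) = ((p-1).factorial : ℚ) / ((J.factorial : ℚ) * ((k+J+1).factorial : ℚ)) := by
    have := Nat.cast_add_choose ℚ (a := J) (b := k+J+1)
    rw [show J+(k+J+1) = p-1 by omega] at this
    exact this
  have e3 : (p.factorial : ℚ) = p * ((p-1).factorial : ℚ) := by
    have := Nat.mul_factorial_pred (n := p) (by omega)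
    rw [← this]; push_cast; ring
  have e4 : ((k+p).factorial : ℚ) = (2*(k:ℚ)+2*J+2) * ((2*(k:ℚ)+2*J+1) * ((2*k+2*J).factorial : ℚ)) := by
    rw [show k+p = 2*k+2*J+1+1 by omega, Nat.factorial_succ, Nat.factorial_succ]; push_cast; ring
  have e5 : ((k+J+1).factorial : ℚ) = ((k:ℚ)+J+1) * ((k+J).factorial : ℚ) := by
    rw [Nat.factorial_succ]; push_cast; ring
  rw [e1, e2, e3, e4, e5]
  unfold ll
  have e6 : (2:ℚ)^(p-1) = 2 * 2^(k+2*J) := by rw [show p-1 = k+2*J+1 by omega, pow_succ]; ring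
  rw [e6]
  have h1 : ((k+J).factorial : ℚ) ≠ 0 := by exact_mod_cast (k+J).factorial_ne_zero
  have h2 : (k.factorial : ℚ) ≠ 0 := by exact_mod_cast k.factorial_ne_zero
  have h3 : (J.factorial : ℚ) ≠ 0 := by exact_mod_cast J.factorial_ne_zero
  have h4 : ((p-1).factorial : ℚ) ≠ 0 := by exact_mod_cast (p-1).factorial_ne_zero
  have h5 : (p:ℚ) ≠ 0 := by rw [h]; positivity
  have h6 : (k:ℚ)+J+1 ≠ 0 := by positivity
  field_simp

end Pool.Agent.N926.Tri
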